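import Mathlib

/-!
Total domination in claw-free graphs: definitions and the basic tools
(strong Hall property of open neighbourhoods, extension of partial colourings).
-/

namespace R93.TotDom

open Finset

universe u

/-- `S` is a total dominating set of `G`: every vertex has a neighbour in `S`. -/
def IsTD {V : Type u} (G : SimpleGraph V) (S : Finset V) : Prop :=
  ∀ v, ∃ w ∈ S, G.Adj v w

/-- No vertex has three distinct, pairwise non-adjacent neighbours (no induced `K_{1,3}`). -/
def ClawFree {V : Type u} (G : SimpleGraph V) : Prop :=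
  ¬ ∃ v a b c, G.Adj v a ∧ G.Adj v b ∧ G.Adj v c ∧ a ≠ b ∧ a ≠ c ∧ b ≠ c ∧
    ¬ G.Adj a b ∧ ¬ G.Adj a c ∧ ¬ G.Adj b c

open Classical in
/-- the largest number of members of the family `S` containing a common vertex -/
noncomputable def mult {V : Type u} [Fintype V] {k : ℕ} (S : Fin k → Finset V) : ℕ :=
  (Finset.univ : Finset V).sup (fun v => (Finset.univ.filter (fun j => v ∈ S j)).card)

/-- The set of all ratios `|F| / m(F)` over nonempty finite families of total dominating sets. -/
def ratios {V : Type u} [Fintype V] (G : SimpleGraph V) : Set ℝ :=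
  {x | ∃ (k : ℕ) (S : Fin k → Finset V), 0 < k ∧ (∀ j, IsTD G (S j)) ∧
    x = (k : ℝ) / (mult S : ℝ)}

/-- fractional total domatic number -/
noncomputable def FTD {V : Type u} [Fintype V] (G : SimpleGraph V) : ℝ := sSup (ratios G)

section
variable {V : Type u} [Fintype V] {G : SimpleGraph V}

open Classical in
lemma card_le_mult {k : ℕ} {S : Fin k → Finset V} (v : V) :
    (Finset.univ.filter (fun j => v ∈ S j)).card ≤ mult S := by
  unfold mult
  exact Finset.le_sup (f := fun v => (Finset.univ.filter (fun j => v ∈ S j)).card)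
    (Finset.mem_univ v)

open Classical in
lemma ratios_bdd [Nonempty V] : BddAbove (ratios G) := by
  refine ⟨(Fintype.card V : ℝ), ?_⟩
  rintro x ⟨k, S, hk, hS, rfl⟩
  have h1 : k ≤ Fintype.card V * mult S := by
    have h2 : ∑ j : Fin k, 1 ≤ ∑ j : Fin k, (S j).card := by
      apply Finset.sum_le_sum
      intro j _
      obtain ⟨w, hw, _⟩ := hS j (Classical.arbitrary V)
      exact Finset.card_pos.mpr ⟨w, hw⟩
    have h3 : ∑ j : Fin k, (S j).card
        = ∑ v : V, (Finset.univ.filter (fun j => v ∈ S j)).card := by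
      have h4 : ∀ j : Fin k, (S j).card = ∑ v : V, if v ∈ S j then 1 else 0 := by
        intro j; simp
      simp_rw [h4]
      rw [Finset.sum_comm]
      apply Finset.sum_congr rfl
      intro v _
      rw [Finset.card_filter]
    have h5 : ∑ v : V, (Finset.univ.filter (fun j => v ∈ S j)).card
        ≤ ∑ v : V, mult S := Finset.sum_le_sum (fun v _ => card_le_mult v)
    simp at h2 h5
    omega
  have hm : 0 < mult S := by
    rcases Nat.eq_zero_or_pos (mult S) with h | h
    · rw [h] at h1; simp at h1; omega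
    · exact h
  rw [div_le_iff₀ (by exact_mod_cast hm)]
  exact_mod_cast h1

open Classical in
/-- lower bound for `FTD` from an indexed family -/
lemma le_FTD_of_family [Nonempty V] {ι : Type} [Fintype ι] [Nonempty ι] (S : ι → Finset V)
    (hS : ∀ j, IsTD G (S j)) (M : ℕ)
    (hM : ∀ v, (Finset.univ.filter (fun j => v ∈ S j)).card ≤ M) :
    (Fintype.card ι : ℝ) / (M : ℝ) ≤ FTD G := by
  set k := Fintype.card ι with hk
  have hkpos : 0 < k := Fintype.card_pos
  let e : Fin k ≃ ι := (Fintype.equivFin ι).symm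
  have hmult : mult (fun j => S (e j)) ≤ M := by
    unfold mult
    apply Finset.sup_le
    intro v _
    refine le_trans (le_of_eq ?_) (hM v)
    apply Finset.card_bij (fun j _ => e j)
    · intro j hj; simpa using hj
    · intro a _ b _ hab; exact e.injective hab
    · intro b hb
      refine ⟨e.symm b, by simpa using hb, by simp⟩
  have hmem : (k : ℝ) / (mult (fun j => S (e j)) : ℝ) ∈ ratios G :=
    ⟨k, fun j => S (e j), hkpos, fun j => hS _, rfl⟩
  have h1 : (k : ℝ) / (mult (fun j => S (e j)) : ℝ) ≤ FTD G := le_csSup ratios_bdd hmem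
  have hm : 0 < mult (fun j => S (e j)) := by
    obtain ⟨w, hw, _⟩ := hS (e ⟨0, hkpos⟩) (Classical.arbitrary V)
    have := card_le_mult (S := fun j => S (e j)) w
    have h2 : 0 < (Finset.univ.filter (fun j => w ∈ S (e j))).card :=
      Finset.card_pos.mpr ⟨⟨0, hkpos⟩, by simpa using hw⟩
    omega
  refine le_trans ?_ h1
  have hm' : (0 : ℝ) < (mult (fun j => S (e j)) : ℝ) := by exact_mod_cast hm
  apply div_le_div_of_nonneg_left (by positivity) hm'
  exact_mod_cast hmult

end

section hall
variable {V : Type u} [Fintype V] [DecidableEq V] (G : SimpleGraph V) [DecidableRel G.Adj]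

/-- open neighbourhood -/
def nb (v : V) : Finset V := Finset.univ.filter (fun w => G.Adj v w)

/-- union of the open neighbourhoods of the vertices of `U` -/
def Nb (U : Finset V) : Finset V := U.biUnion (nb G)

variable {G}

@[simp] lemma mem_nb {v w : V} : w ∈ nb G v ↔ G.Adj v w := by simp [nb]

@[simp] lemma mem_Nb {U : Finset V} {w : V} : w ∈ Nb G U ↔ ∃ v ∈ U, G.Adj v w := by
  simp [Nb]

variable (G) in
/-- the vertices of `U` with no neighbour in `U` -/
def iso (U : Finset V) : Finset V := U.filter (fun v => ∀ w ∈ U, ¬ G.Adj v w)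

lemma mem_iso {U : Finset V} {v : V} : v ∈ iso G U ↔ v ∈ U ∧ ∀ w ∈ U, ¬ G.Adj v w := by
  simp [iso]

def Indep (G : SimpleGraph V) (I : Finset V) : Prop := ∀ v ∈ I, ∀ w ∈ I, ¬ G.Adj v w

lemma iso_indep (U : Finset V) : Indep G (iso G U) := by
  intro v hv w hw
  rw [mem_iso] at hv hw
  exact hv.2 w hw.1

/-- in a claw-free graph a vertex has at most two neighbours in an independent set -/
lemma card_nb_inter_le_two (hc : ClawFree G) {I : Finset V} (hI : Indep G I) (y : V) :
    (I.filter (fun i => G.Adj y i)).card ≤ 2 := by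
  by_contra hcon
  push Not at hcon
  obtain ⟨a, b, c, ha, hb, hcc, hab, hac, hbc⟩ := Finset.two_lt_card_iff.mp hcon
  simp only [Finset.mem_filter] at ha hb hcc
  exact hc ⟨y, a, b, c, ha.2, hb.2, hcc.2, hab, hac, hbc, hI a ha.1 b hb.1, hI a ha.1 c hcc.1,
    hI b hb.1 c hcc.1⟩

/-- double counting: with a set `X` of deleted vertices -/
lemma sum_deg_le (hc : ClawFree G) {I : Finset V} (hI : Indep G I) (X : Finset V) :
    ∑ i ∈ I, (nb G i \ X).card ≤ 2 * (Nb G I \ X).card := by
  have h1 : ∑ i ∈ I, (nb G i \ X).card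
      = ∑ y ∈ Nb G I \ X, (I.filter (fun i => G.Adj y i)).card := by
    have h2 : ∀ i ∈ I, (nb G i \ X).card
        = ∑ y ∈ Nb G I \ X, if G.Adj y i then 1 else 0 := by
      intro i hi
      rw [← Finset.card_filter]
      congr 1
      ext y
      simp only [Finset.mem_sdiff, mem_nb, Finset.mem_filter, mem_Nb]
      constructor
      · rintro ⟨h, hx⟩; exact ⟨⟨⟨i, hi, h⟩, hx⟩, h.symm⟩
      · rintro ⟨⟨_, hx⟩, h⟩; exact ⟨h.symm, hx⟩
    rw [Finset.sum_congr rfl h2, Finset.sum_comm]
    apply Finset.sum_congr rfl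
    intro y _
    rw [Finset.card_filter]
  rw [h1]
  calc ∑ y ∈ Nb G I \ X, (I.filter (fun i => G.Adj y i)).card
      ≤ ∑ y ∈ Nb G I \ X, 2 := Finset.sum_le_sum (fun y _ => card_nb_inter_le_two hc hI y)
    _ = 2 * (Nb G I \ X).card := by simp [mul_comm]

lemma iso_card_add (U : Finset V) : (iso G U).card + (U \ iso G U).card = U.card := by
  have h : iso G U ⊆ U := Finset.filter_subset _ _
  rw [Finset.card_sdiff_of_subset h]
  have := Finset.card_le_card h
  omega

/-- `U \ iso U ⊆ Nb U`, and `Nb (iso U)` is disjoint from `U` -/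
lemma sdiff_iso_subset (U : Finset V) : U \ iso G U ⊆ Nb G U := by
  intro v hv
  simp only [Finset.mem_sdiff, mem_iso, not_and, not_forall, not_not] at hv
  obtain ⟨hvU, h⟩ := hv
  obtain ⟨w, hw, hadj⟩ := h hvU
  exact mem_Nb.mpr ⟨w, hw, hadj.symm⟩

lemma Nb_mono {A B : Finset V} (h : A ⊆ B) : Nb G A ⊆ Nb G B :=
  Finset.biUnion_subset_biUnion_of_subset_left _ h

lemma Nb_iso_subset (U : Finset V) : Nb G (iso G U) ⊆ Nb G U :=
  Nb_mono (Finset.filter_subset _ _)

lemma Nb_iso_disj (U : Finset V) : Disjoint (Nb G (iso G U)) U := by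
  rw [Finset.disjoint_left]
  intro v hv hvU
  obtain ⟨i, hi, hadj⟩ := mem_Nb.mp hv
  exact (mem_iso.mp hi).2 v hvU hadj

lemma card_Nb_ge (U : Finset V) :
    (U \ iso G U).card + (Nb G (iso G U)).card ≤ (Nb G U).card := by
  rw [← Finset.card_union_of_disjoint]
  · exact Finset.card_le_card (Finset.union_subset (sdiff_iso_subset U) (Nb_iso_subset U))
  · exact (Nb_iso_disj U).symm.mono_left Finset.sdiff_subset

/-- a set closed under adjacency in a connected graph is empty or everything -/
lemma closed_eq_univ (hconn : G.Connected) {A : Finset V} (hne : A.Nonempty)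
    (hcl : ∀ v ∈ A, ∀ w, G.Adj v w → w ∈ A) : A = Finset.univ := by
  obtain ⟨a, ha⟩ := hne
  ext w
  simp only [Finset.mem_univ, iff_true]
  obtain ⟨p⟩ := hconn.preconnected a w
  induction p with
  | nil => exact ha
  | cons h p ih => exact ih (hcl _ ha _ h)

/-- Extension lemma: a bijection `φ` with `φ v ∈ N(v)` outside `U0`, and no nonempty set `U`
disjoint from `U0` with `Nb U ⊆ φ(U)`. -/
lemma ext_coloring (φ : V → V) (hφ : Function.Injective φ) (U0 : Finset V)
    (hN : ∀ v, v ∉ U0 → G.Adj v (φ v))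
    (hT : ∀ U : Finset V, U.Nonempty → Disjoint U U0 → ∃ y ∈ Nb G U, y ∉ U.image φ)
    (c0 : V → Bool) :
    ∃ c : V → Bool, (∀ u ∈ U0, c (φ u) = c0 (φ u)) ∧
      ∀ v, v ∉ U0 → ∃ a b, G.Adj v a ∧ G.Adj v b ∧ c a ≠ c b := by
  have hsurj : Function.Surjective φ := Finite.surjective_of_injective hφ
  have main : ∀ (n : ℕ) (S : Finset V) (c : V → Bool), (Finset.univ \ S).card = n → U0 ⊆ S →
      (∀ u ∈ U0, c (φ u) = c0 (φ u)) →
      (∀ v ∈ S, v ∉ U0 → ∃ a ∈ S.image φ, ∃ b ∈ S.image φ, G.Adj v a ∧ G.Adj v b ∧ c a ≠ c b) →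
      ∃ c : V → Bool, (∀ u ∈ U0, c (φ u) = c0 (φ u)) ∧
        ∀ v, v ∉ U0 → ∃ a b, G.Adj v a ∧ G.Adj v b ∧ c a ≠ c b := by
    intro n
    induction n with
    | zero =>
      intro S c hn _ hc hS
      have hSu : S = Finset.univ := by
        rw [Finset.card_eq_zero, Finset.sdiff_eq_empty_iff_subset] at hn
        exact Finset.eq_univ_iff_forall.mpr (fun x => hn (Finset.mem_univ x))
      refine ⟨c, hc, fun v hv => ?_⟩
      obtain ⟨a, _, b, _, h⟩ := hS v (hSu ▸ Finset.mem_univ v) hv
      exact ⟨a, b, h⟩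
    | succ n ih =>
      intro S c hn hU hc hS
      have hne : (Finset.univ \ S).Nonempty := Finset.card_pos.mp (by omega)
      have hdis : Disjoint (Finset.univ \ S) U0 := by
        rw [Finset.disjoint_left]
        intro x hx hx0
        simp at hx
        exact hx (hU hx0)
      obtain ⟨y, hy, hyφ⟩ := hT _ hne hdis
      obtain ⟨v, hv, hvy⟩ := mem_Nb.mp hy
      have hvS : v ∉ S := by simpa using hv
      have hyS : y ∈ S.image φ := by
        obtain ⟨z, rfl⟩ := hsurj y
        by_cases hz : z ∈ S
        · exact Finset.mem_image_of_mem _ hz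
        · exact absurd (Finset.mem_image_of_mem φ (by simpa using hz)) hyφ
      have hφv : φ v ∉ S.image φ := by
        intro h
        obtain ⟨z, hz, hzv⟩ := Finset.mem_image.mp h
        exact hvS (hφ hzv ▸ hz)
      have hyne : y ≠ φ v := fun h => hφv (h ▸ hyS)
      have hv0 : v ∉ U0 := fun h => hvS (hU h)
      refine ih (insert v S) (Function.update c (φ v) (!(c y))) ?_ ?_ ?_ ?_
      · have h1 : (Finset.univ \ insert v S) = (Finset.univ \ S).erase v := by
          ext x; simp [not_or]
        rw [h1, Finset.card_erase_of_mem hv, hn]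
        rfl
      · exact hU.trans (Finset.subset_insert _ _)
      · intro u hu
        have : φ u ≠ φ v := fun h => hφv (h ▸ Finset.mem_image_of_mem φ (hU hu))
        rw [Function.update_of_ne this]
        exact hc u hu
      · intro w hw hw0
        rcases Finset.mem_insert.mp hw with rfl | hwS
        · refine ⟨y, ?_, φ w, ?_, hvy, hN w hw0, ?_⟩
          · exact Finset.image_subset_image (Finset.subset_insert _ _) hyS
          · exact Finset.mem_image_of_mem _ (Finset.mem_insert_self _ _)
          · rw [Function.update_of_ne hyne, Function.update_self]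
            cases c y <;> simp
        · obtain ⟨a, ha, b, hb, h1, h2, h3⟩ := hS w hwS hw0
          refine ⟨a, Finset.image_subset_image (Finset.subset_insert _ _) ha, b,
            Finset.image_subset_image (Finset.subset_insert _ _) hb, h1, h2, ?_⟩
          have hane : a ≠ φ v := fun h => hφv (h ▸ ha)
          have hbne : b ≠ φ v := fun h => hφv (h ▸ hb)
          rw [Function.update_of_ne hane, Function.update_of_ne hbne]
          exact h3
  exact main _ U0 c0 rfl (Finset.Subset.refl _) (fun _ _ => rfl)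
    (fun v hv hv0 => absurd hv hv0)

/-- construction of the bijection from Hall's condition outside `U0`, `X0` -/
lemma exists_bij (U0 X0 : Finset V) (g : V → V) (hg : Set.InjOn g U0) (hgX : ∀ u ∈ U0, g u ∈ X0)
    (hH : ∀ U : Finset V, Disjoint U U0 → U.card ≤ (Nb G U \ X0).card) :
    ∃ φ : V → V, Function.Injective φ ∧ (∀ u ∈ U0, φ u = g u) ∧
      ∀ v, v ∉ U0 → G.Adj v (φ v) := by
  classical
  let t : {v // v ∉ U0} → Finset V := fun v => nb G v.1 \ X0
  have h1 : ∀ s : Finset {v // v ∉ U0}, s.card ≤ (s.biUnion t).card := by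
    intro s
    let U : Finset V := s.map (Function.Embedding.subtype _)
    have hd : Disjoint U U0 := by
      rw [Finset.disjoint_left]
      intro x hx
      obtain ⟨y, _, rfl⟩ := Finset.mem_map.mp hx
      exact y.2
    have h2 := hH U hd
    have h3 : Nb G U \ X0 = s.biUnion t := by
      ext y
      simp only [Finset.mem_sdiff, mem_Nb, Finset.mem_biUnion, U, t, Finset.mem_map,
        Function.Embedding.coe_subtype, mem_nb]
      constructor
      · rintro ⟨⟨v, ⟨w, hw, rfl⟩, hadj⟩, hx⟩
        exact ⟨w, hw, hadj, hx⟩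
      · rintro ⟨w, hw, hadj, hx⟩
        exact ⟨⟨w.1, ⟨w, hw, rfl⟩, hadj⟩, hx⟩
    rw [h3] at h2
    simpa [U] using h2
  obtain ⟨ψ, hψinj, hψ⟩ := (Finset.all_card_le_biUnion_card_iff_exists_injective t).mp h1
  refine ⟨fun v => if h : v ∈ U0 then g v else ψ ⟨v, h⟩, ?_, ?_, ?_⟩
  · intro a b hab
    by_cases ha : a ∈ U0 <;> by_cases hb : b ∈ U0 <;> simp only [ha, hb, dite_true, dite_false] at hab
    · exact hg ha hb hab
    · exfalso
      have := hψ ⟨b, hb⟩
      simp only [t, Finset.mem_sdiff] at this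
      exact this.2 (hab ▸ hgX a ha)
    · exfalso
      have := hψ ⟨a, ha⟩
      simp only [t, Finset.mem_sdiff] at this
      exact this.2 (hab ▸ hgX b hb)
    · exact congrArg Subtype.val (hψinj hab)
  · intro u hu
    simp [hu]
  · intro v hv
    have := hψ ⟨v, hv⟩
    simp only [t, Finset.mem_sdiff, mem_nb] at this
    simp only [hv, dite_false]
    exact this.1

end hall

end R93.TotDom
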