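import Pool.Agent.R93.TotDom.Two

/-!
Claw-free graphs of minimum degree three without 4-cycles in which every edge is in a triangle:
a shortest cycle of length at least four gives a suitable coloured set.
-/

namespace R93.TotDom

open Finset

universe u

/-- there is a cycle of length `k` -/
def Cyc {V : Type u} (G : SimpleGraph V) (k : ℕ) : Prop :=
  ∃ p : ℕ → V, (∀ i j, i < j → j < k → p i ≠ p j) ∧ (∀ i, i + 1 < k → G.Adj (p i) (p (i + 1))) ∧
    G.Adj (p (k - 1)) (p 0)

/-- there is a path with `k` vertices -/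
def Pth {V : Type u} (G : SimpleGraph V) (k : ℕ) : Prop :=
  ∃ p : ℕ → V, (∀ i j, i < j → j < k → p i ≠ p j) ∧ (∀ i, i + 1 < k → G.Adj (p i) (p (i + 1)))

/-- periodic parametrisation of a cycle -/
structure PC {V : Type u} (G : SimpleGraph V) (l : ℕ) (e : ℕ → V) : Prop where
  per : ∀ i, e (i + l) = e i
  adj : ∀ i, G.Adj (e i) (e (i + 1))
  inj : ∀ i s, 0 < s → s < l → e i ≠ e (i + s)

section
variable {V : Type u} {G : SimpleGraph V}

lemma PC_of_Cyc {l : ℕ} (hl : 2 ≤ l) (h : Cyc G l) : ∃ e, PC G l e := by
  obtain ⟨p, h1, h2, h3⟩ := h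
  refine ⟨fun i => p (i % l), ?_, ?_, ?_⟩
  · intro i; simp
  · intro i
    have hlt : i % l < l := Nat.mod_lt _ (by omega)
    by_cases hi : i % l + 1 < l
    · have : (i + 1) % l = i % l + 1 := by
        rw [Nat.add_mod, Nat.mod_eq_of_lt (show 1 < l by omega), Nat.mod_eq_of_lt hi]
      simp only [this]
      exact h2 _ hi
    · have hi' : i % l + 1 = l := by omega
      have : (i + 1) % l = 0 := by
        rw [Nat.add_mod, Nat.mod_eq_of_lt (show 1 < l by omega), hi', Nat.mod_self]
      simp only [this]
      have h4 : i % l = l - 1 := by omega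
      rw [h4]
      exact h3
  · intro i s hs hsl
    have hlt : i % l < l := Nat.mod_lt _ (by omega)
    have hlt' : (i + s) % l < l := Nat.mod_lt _ (by omega)
    have hne : (i + s) % l ≠ i % l := by
      intro h
      have h5 : (i + s) ≡ i + 0 [MOD l] := by simpa [Nat.ModEq] using h
      have h6 : s ≡ 0 [MOD l] := Nat.ModEq.add_left_cancel' i h5
      have h7 : l ∣ s := (Nat.modEq_zero_iff_dvd).mp h6
      have := Nat.le_of_dvd hs h7
      omega
    rcases Nat.lt_or_gt_of_ne hne with h | h
    · exact (h1 _ _ h hlt).symm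
    · exact h1 _ _ h hlt'

namespace PC
variable {l : ℕ} {e : ℕ → V}

lemma mod (h : PC G l e) (i : ℕ) : e (i % l) = e i :=
  Function.Periodic.map_mod_nat h.per i

lemma eq_of_mod (h : PC G l e) {a b : ℕ} (hab : a % l = b % l) : e a = e b := by
  rw [← h.mod a, ← h.mod b, hab]

lemma mod_of_eq (h : PC G l e) (hl : 0 < l) {a b : ℕ} (hab : e a = e b) : a % l = b % l := by
  by_contra hcon
  rw [← h.mod a, ← h.mod b] at hab
  have h1 : a % l < l := Nat.mod_lt _ hl
  have h2 : b % l < l := Nat.mod_lt _ hl
  rcases Nat.lt_or_gt_of_ne hcon with h3 | h3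
  · apply h.inj (a % l) (b % l - a % l) (by omega) (by omega)
    rw [hab]; congr 1; omega
  · apply h.inj (b % l) (a % l - b % l) (by omega) (by omega)
    rw [← hab]; congr 1; omega

lemma repr (h : PC G l e) (hl : 0 < l) (i k : ℕ) : ∃ s, s < l ∧ (i + s) % l = k % l := by
  refine ⟨(k + (l - i % l)) % l, Nat.mod_lt _ hl, ?_⟩
  have h1 : i % l < l := Nat.mod_lt _ hl
  have h2 := Nat.div_add_mod i l
  rw [Nat.add_mod_mod]
  have h3 : i + (k + (l - i % l)) = k + l * (i / l + 1) := by
    rw [Nat.mul_add, Nat.mul_one]; omega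
  rw [h3, Nat.add_mul_mod_self_left]

/-- chord gives a shorter cycle -/
lemma chord (h : PC G l e) {j s : ℕ} (hs : s < l) (hadj : G.Adj (e j) (e (j + s))) :
    Cyc G (s + 1) := by
  refine ⟨fun i => e (j + i), ?_, ?_, ?_⟩
  · intro i i' hii hi
    have := h.inj (j + i) (i' - i) (by omega) (by omega)
    rwa [show j + i + (i' - i) = j + i' by omega] at this
  · intro i _
    exact h.adj (j + i)
  · simpa using hadj.symm

lemma seg1 (h : PC G l e) {j s : ℕ} (hs : s < l) {v : V} (hv : ∀ i, e i ≠ v)
    (h1 : G.Adj v (e j)) (h2 : G.Adj v (e (j + s))) : Cyc G (s + 2) := by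
  refine ⟨fun i => if i ≤ s then e (j + i) else v, ?_, ?_, ?_⟩
  · intro i i' hii hi
    by_cases h3 : i' ≤ s
    · simp only [h3, if_true, show i ≤ s by omega]
      have := h.inj (j + i) (i' - i) (by omega) (by omega)
      rwa [show j + i + (i' - i) = j + i' by omega] at this
    · simp only [h3, if_false, show i ≤ s by omega, if_true]
      exact hv _
  · intro i hi
    by_cases h3 : i + 1 ≤ s
    · simp only [h3, if_true, show i ≤ s by omega]
      exact h.adj (j + i)
    · have h4 : i = s := by omega
      simp only [h3, if_false, show i ≤ s by omega, if_true]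
      rw [h4]; exact h2.symm
  · simp only [show ¬ (s + 2 - 1 ≤ s) by omega, if_false, Nat.zero_le, if_true, Nat.add_zero]
    exact h1

lemma seg2 (h : PC G l e) {j s : ℕ} (hs : s < l) {u v : V} (hu : ∀ i, e i ≠ u)
    (hv : ∀ i, e i ≠ v) (huv : G.Adj u v) (h1 : G.Adj u (e (j + s))) (h2 : G.Adj v (e j)) :
    Cyc G (s + 3) := by
  refine ⟨fun i => if i ≤ s then e (j + i) else if i = s + 1 then u else v, ?_, ?_, ?_⟩
  · intro i i' hii hi
    by_cases h3 : i' ≤ s
    · simp only [h3, if_true, show i ≤ s by omega]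
      have := h.inj (j + i) (i' - i) (by omega) (by omega)
      rwa [show j + i + (i' - i) = j + i' by omega] at this
    · by_cases h4 : i' = s + 1
      · simp only [h4, show ¬ (s + 1 ≤ s) by omega, if_false, show i ≤ s by omega, if_true]
        exact hu _
      · have h5 : i' = s + 2 := by omega
        by_cases h6 : i ≤ s
        · simp only [h3, h4, if_false, h6, if_true]
          exact hv _
        · have h7 : i = s + 1 := by omega
          simp only [h3, h4, if_false, h7, if_true, show ¬ (s + 1 ≤ s) by omega]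
          exact huv.ne
  · intro i hi
    by_cases h3 : i + 1 ≤ s
    · simp only [h3, if_true, show i ≤ s by omega]
      exact h.adj (j + i)
    · by_cases h4 : i = s
      · simp only [h4, show ¬ (s + 1 ≤ s) by omega, if_false, le_refl, if_true]
        exact h1.symm
      · have h5 : i = s + 1 := by omega
        simp only [h5, show ¬ (s + 1 ≤ s) by omega, show ¬ (s + 1 + 1 ≤ s) by omega,
          if_false, if_true, show ¬ (s + 1 + 1 = s + 1) by omega]
        exact huv
  · simp only [show ¬ (s + 3 - 1 ≤ s) by omega, show ¬ (s + 3 - 1 = s + 1) by omega, if_false,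
      Nat.zero_le, if_true, Nat.add_zero]
    exact h2

variable (hl : 5 ≤ l) (hmin : ∀ k, 4 ≤ k → k < l → ¬ Cyc G k)
include hl hmin

lemma chord_cases (h : PC G l e) {i s : ℕ} (hs0 : 0 < s) (hs : s < l)
    (hadj : G.Adj (e i) (e (i + s))) : s = 1 ∨ s = l - 1 := by
  by_contra hcon
  push Not at hcon
  by_cases h3 : 3 ≤ s
  · exact hmin (s + 1) (by omega) (by omega) (h.chord hs hadj)
  · have h4 : s = 2 := by omega
    subst h4
    have h5 : G.Adj (e (i + 2)) (e (i + 2 + (l - 2))) := by
      rw [show i + 2 + (l - 2) = i + l by omega, h.per]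
      exact hadj.symm
    exact hmin (l - 2 + 1) (by omega) (by omega) (h.chord (by omega) h5)

lemma vert_cases (h : PC G l e) {v : V} (hv : ∀ i, e i ≠ v) {i s : ℕ} (hs0 : 0 < s)
    (hs : s < l) (h1 : G.Adj v (e i)) (h2 : G.Adj v (e (i + s))) : s = 1 ∨ s = l - 1 := by
  by_contra hcon
  push Not at hcon
  have h3 : l ≤ s + 2 := by
    by_contra hlt
    exact hmin (s + 2) (by omega) (by omega) (h.seg1 hs hv h1 h2)
  have h5 : G.Adj v (e (i + s + (l - s))) := by
    rw [show i + s + (l - s) = i + l by omega, h.per]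
    exact h1
  have h6 : l ≤ (l - s) + 2 := by
    by_contra hlt
    exact hmin ((l - s) + 2) (by omega) (by omega) (h.seg1 (by omega) hv h2 h5)
  omega

end PC

end

section
variable {V : Type u} [Fintype V] [DecidableEq V] {G : SimpleGraph V} [DecidableRel G.Adj]

lemma exists_cyc (hne : Nonempty V) (hd : ∀ v, 3 ≤ (nb G v).card) : ∃ k, 4 ≤ k ∧ Cyc G k := by
  have hbound : ∀ k, Pth G k → k ≤ Fintype.card V := by
    rintro k ⟨p, hp, _⟩
    have : Function.Injective (fun i : Fin k => p i) := by
      intro i j hij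
      by_contra hcon
      have hne : (i : ℕ) ≠ j := fun h => hcon (Fin.ext h)
      rcases Nat.lt_or_gt_of_ne hne with h | h
      · exact hp _ _ h j.2 hij
      · exact hp _ _ h i.2 hij.symm
    simpa using Fintype.card_le_of_injective _ this
  have h1 : Pth G 1 := by
    obtain ⟨x⟩ := hne
    exact ⟨fun _ => x, fun i j h1 h2 => by omega, fun i h => by omega⟩
  obtain ⟨k, hk1, hk, hk'⟩ : ∃ k, 1 ≤ k ∧ Pth G k ∧ ¬ Pth G (k + 1) := by
    by_contra hcon
    push Not at hcon
    have : ∀ k, 1 ≤ k → Pth G k := by
      intro k hk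
      induction k with
      | zero => omega
      | succ n ih =>
        rcases Nat.eq_zero_or_pos n with h | h
        · subst h; exact h1
        · exact hcon n h (ih h)
    have := hbound _ (this (Fintype.card V + 1) (by omega))
    omega
  obtain ⟨p, hp, hadj⟩ := hk
  have hall : ∀ x, G.Adj (p (k - 1)) x → ∃ i, i < k ∧ p i = x := by
    intro x hx
    by_contra hcon
    push Not at hcon
    apply hk'
    refine ⟨fun i => if i < k then p i else x, ?_, ?_⟩
    · intro i j hij hj
      by_cases h3 : j < k
      · simp only [h3, if_true, show i < k by omega]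
        exact hp i j hij h3
      · simp only [h3, if_false, show i < k by omega, if_true]
        exact hcon i (by omega)
    · intro i hi
      by_cases h3 : i + 1 < k
      · simp only [h3, if_true, show i < k by omega]
        exact hadj i h3
      · simp only [h3, if_false, show i < k by omega, if_true]
        have : i = k - 1 := by omega
        rw [this]; exact hx
  let idx : Finset ℕ := (Finset.range k).filter (fun i => G.Adj (p (k - 1)) (p i))
  have hcard : 3 ≤ idx.card := by
    have h3 : nb G (p (k - 1)) ⊆ idx.image p := by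
      intro x hx
      obtain ⟨i, hi, hix⟩ := hall x (mem_nb.mp hx)
      refine Finset.mem_image.mpr ⟨i, ?_, hix⟩
      simp only [idx, Finset.mem_filter, Finset.mem_range]
      exact ⟨hi, by rw [hix]; exact mem_nb.mp hx⟩
    have h4 := Finset.card_le_card h3
    have h5 := Finset.card_image_le (s := idx) (f := p)
    have h6 := hd (p (k - 1))
    omega
  have hne' : idx.Nonempty := Finset.card_pos.mp (by omega)
  obtain ⟨a, ha⟩ : ∃ a, a = idx.min' hne' := ⟨_, rfl⟩
  have hamem : a ∈ idx := ha ▸ Finset.min'_mem _ _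
  have hsub : idx ⊆ Finset.Ico a (k - 1) := by
    intro i hi
    have h3 : a ≤ i := ha ▸ Finset.min'_le _ _ hi
    simp only [idx, Finset.mem_filter, Finset.mem_range] at hi
    have h4 : i ≠ k - 1 := by
      rintro rfl
      exact G.loopless.irrefl _ hi.2
    simp only [Finset.mem_Ico]
    omega
  have h7 := Finset.card_le_card hsub
  rw [Nat.card_Ico] at h7
  simp only [idx, Finset.mem_filter, Finset.mem_range] at hamem
  refine ⟨k - a, by omega, fun i => p (a + i), ?_, ?_, ?_⟩
  · intro i j hij hj
    exact hp _ _ (by omega) (by omega)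
  · intro i hi
    exact hadj _ (by omega)
  · have : a + (k - a - 1) = k - 1 := by omega
    simp only [this, Nat.add_zero]
    exact hamem.2

/-- every edge in a triangle, no 4-cycles -/
lemma happy_of_tri (hconn : G.Connected) (hc : ClawFree G) (hd : ∀ v, 3 ≤ (nb G v).card)
    (h4 : NoC4 G) (htri : ∀ x y, G.Adj x y → ∃ z, G.Adj x z ∧ G.Adj y z) :
    ∃ c, Happy G c := by
  classical
  -- a shortest cycle of length at least four
  have hex : ∃ k, 4 ≤ k ∧ Cyc G k := exists_cyc hconn.nonempty hd
  let l := Nat.find hex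
  have hl4 : 4 ≤ l := (Nat.find_spec hex).1
  have hcyc : Cyc G l := (Nat.find_spec hex).2
  have hmin : ∀ k, 4 ≤ k → k < l → ¬ Cyc G k := fun k h1 h2 h3 => Nat.find_min hex h2 ⟨h1, h3⟩
  have hl : 5 ≤ l := by
    rcases Nat.lt_or_ge 4 l with h | h
    · exact h
    · exfalso
      have h5 : l = 4 := by omega
      rw [h5] at hcyc
      obtain ⟨p, hp, hadj, hcl⟩ := hcyc
      exact hp 1 3 (by omega) (by omega) (h4 (p 0) (p 2) (p 1) (p 3) (hp 0 2 (by omega) (by omega))
        (hadj 0 (by omega)) hcl.symm (hadj 1 (by omega)).symm (hadj 2 (by omega)))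
  obtain ⟨e, he⟩ := PC_of_Cyc (by omega) hcyc
  clear_value l
  have hl0 : 0 < l := by omega
  choose! F hF using htri
  let f : ℕ → V := fun i => F (e i) (e (i + 1))
  have hf1 : ∀ i, G.Adj (e i) (f i) := fun i => (hF _ _ (he.adj i)).1
  have hf2 : ∀ i, G.Adj (e (i + 1)) (f i) := fun i => (hF _ _ (he.adj i)).2
  have hfmod : ∀ a b, a % l = b % l → f a = f b := by
    intro a b hab
    show F _ _ = F _ _
    have h1 : (a + 1) % l = (b + 1) % l := by
      rw [Nat.add_mod, hab, ← Nat.add_mod]
    rw [he.eq_of_mod hab, he.eq_of_mod h1]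
  have hfC : ∀ i k, e k ≠ f i := by
    intro i k heq
    obtain ⟨s, hs, hsk⟩ := he.repr hl0 i k
    have h1 : e (i + s) = f i := by rw [← heq]; exact he.eq_of_mod hsk
    have hs0 : 0 < s := by
      rcases Nat.eq_zero_or_pos s with h | h
      · subst h
        have := hf1 i
        rw [← h1] at this
        exact absurd this (G.loopless.irrefl _)
      · exact h
    have h2 : G.Adj (e i) (e (i + s)) := by rw [h1]; exact hf1 i
    have h3 : G.Adj (e (i + 1)) (e (i + s)) := by rw [h1]; exact hf2 i
    rcases he.chord_cases hl hmin hs0 hs h2 with h | h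
    · subst h; exact G.loopless.irrefl _ h3
    · subst h
      have h5 : G.Adj (e (i + 1)) (e (i + 1 + (l - 2))) := by
        rw [show i + 1 + (l - 2) = i + (l - 1) by omega]; exact h3
      have := he.chord_cases hl hmin (by omega) (by omega) h5
      omega
  have hadjf : ∀ i k, G.Adj (f i) (e k) → k % l = i % l ∨ k % l = (i + 1) % l := by
    intro i k hadj
    obtain ⟨s, hs, hsk⟩ := he.repr hl0 i k
    have h1 : G.Adj (f i) (e (i + s)) := by rw [he.eq_of_mod hsk]; exact hadj
    rcases Nat.eq_zero_or_pos s with h | h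
    · subst h; left; rw [← hsk, Nat.add_zero]
    · rcases he.vert_cases hl hmin (fun j => hfC i j) h hs (hf1 i).symm h1 with h' | h'
      · subst h'; right; exact hsk.symm
      · exfalso
        subst h'
        have h5 : G.Adj (f i) (e (i + 1 + (l - 2))) := by
          rw [show i + 1 + (l - 2) = i + (l - 1) by omega]; exact h1
        have := he.vert_cases hl hmin (fun j => hfC i j) (by omega) (by omega) (hf2 i).symm h5
        omega
  have hmod1 : ∀ i, (i + 1) % l ≠ i % l := by
    intro i h
    exact he.inj i 1 (by omega) (by omega) (he.eq_of_mod h).symm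
  have hmod2 : ∀ i, (i + 2) % l ≠ i % l := by
    intro i h
    exact he.inj i 2 (by omega) (by omega) (he.eq_of_mod h).symm
  have hsucc : ∀ a b, a % l = b % l → (a + 1) % l = (b + 1) % l := by
    intro a b hab
    rw [Nat.add_mod, hab, ← Nat.add_mod]
  have hfinj : ∀ i j, f i = f j → i % l = j % l := by
    intro i j hij
    have h1 := hadjf i j (by rw [hij]; exact (hf1 j).symm)
    have h2 := hadjf i (j + 1) (by rw [hij]; exact (hf2 j).symm)
    rcases h1 with h | h
    · exact h.symm
    · exfalso
      have h3 := hsucc _ _ h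
      rcases h2 with h' | h'
      · exact hmod2 i (h3.symm.trans h')
      · exact hmod1 (i + 1) (h3.symm.trans h')
  have hff1 : ∀ i, ¬ G.Adj (f i) (f (i + 1)) := by
    intro i h
    exact hfC (i + 1) i (h4 (f i) (e (i + 1)) (e i) (f (i + 1)) (hfC i (i + 1)).symm
      (hf1 i).symm h (he.adj i).symm (hf1 (i + 1)))
  have hff : ∀ i j, ¬ G.Adj (f i) (f j) := by
    intro i j hadj
    obtain ⟨s, hs, hsk⟩ := he.repr hl0 i j
    rw [← hfmod _ _ hsk] at hadj
    by_cases h0 : s = 0
    · subst h0; exact G.loopless.irrefl _ hadj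
    by_cases h1 : s = 1
    · subst h1; exact hff1 i hadj
    by_cases h2 : s = l - 1
    · apply hff1 (i + s)
      have : f (i + s + 1) = f i := hfmod _ _ (by
        rw [show i + s + 1 = i + l by omega, Nat.add_mod_right])
      rw [this]; exact hadj.symm
    · have c1 : Cyc G ((s - 1) + 3) := by
        refine he.seg2 (j := i + 1) (s := s - 1) (u := f (i + s)) (v := f i) (by omega)
          (hfC _) (hfC _) hadj.symm ?_ (hf2 i).symm
        rw [show i + 1 + (s - 1) = i + s by omega]
        exact (hf1 _).symm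
      have c2 : Cyc G ((l - s - 1) + 3) := by
        refine he.seg2 (j := i + s + 1) (s := l - s - 1) (u := f i) (v := f (i + s)) (by omega)
          (hfC _) (hfC _) hadj ?_ (hf2 (i + s)).symm
        rw [show i + s + 1 + (l - s - 1) = i + l by omega, he.per]
        exact (hf1 i).symm
      have c3 : l ≤ (s - 1) + 3 := by
        by_contra hlt
        exact hmin _ (by omega) (by omega) c1
      have c4 : l ≤ (l - s - 1) + 3 := by
        by_contra hlt
        exact hmin _ (by omega) (by omega) c2
      omega
  -- the set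
  let T : ℕ → Prop := fun i => l % 2 = 0 ∨ (1 ≤ i ∧ i ≤ l - 2)
  let S : Finset V := (Finset.range l).image e ∪ ((Finset.range l).filter T).image f
  have heS : ∀ i, e i ∈ S := by
    intro i
    apply Finset.mem_union_left
    exact Finset.mem_image.mpr ⟨i % l, Finset.mem_range.mpr (Nat.mod_lt _ hl0), he.mod i⟩
  have hfS : ∀ i, i < l → T i → f i ∈ S := by
    intro i hi hT
    apply Finset.mem_union_right
    exact Finset.mem_image.mpr ⟨i, Finset.mem_filter.mpr ⟨Finset.mem_range.mpr hi, hT⟩, rfl⟩
  have hSmem : ∀ x ∈ S, (∃ i, i < l ∧ x = e i) ∨ (∃ i, i < l ∧ T i ∧ x = f i) := by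
    intro x hx
    rcases Finset.mem_union.mp hx with h | h
    · obtain ⟨i, hi, rfl⟩ := Finset.mem_image.mp h
      exact Or.inl ⟨i, Finset.mem_range.mp hi, rfl⟩
    · obtain ⟨i, hi, rfl⟩ := Finset.mem_image.mp h
      have := Finset.mem_filter.mp hi
      exact Or.inr ⟨i, Finset.mem_range.mp this.1, this.2, rfl⟩
  let c0 : V → Bool := fun x => decide (∃ i, i < l ∧ i % 2 = 1 ∧ (e i = x ∨ f i = x))
  have hc0e : ∀ i, i < l → (c0 (e i) = true ↔ i % 2 = 1) := by
    intro i hi
    simp only [c0, decide_eq_true_eq]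
    constructor
    · rintro ⟨j, hj, hj2, h | h⟩
      · have := he.mod_of_eq hl0 h
        rw [Nat.mod_eq_of_lt hj, Nat.mod_eq_of_lt hi] at this
        rw [← this]; exact hj2
      · exact absurd h.symm (hfC j i)
    · intro h; exact ⟨i, hi, h, Or.inl rfl⟩
  have hc0f : ∀ i, i < l → (c0 (f i) = true ↔ i % 2 = 1) := by
    intro i hi
    simp only [c0, decide_eq_true_eq]
    constructor
    · rintro ⟨j, hj, hj2, h | h⟩
      · exact absurd h (hfC i j)
      · have := hfinj _ _ h
        rw [Nat.mod_eq_of_lt hj, Nat.mod_eq_of_lt hi] at this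
        rw [← this]; exact hj2
    · intro h; exact ⟨i, hi, h, Or.inr rfl⟩
  have hne_of : ∀ x y : V, ∀ a b : ℕ, (c0 x = true ↔ a % 2 = 1) → (c0 y = true ↔ b % 2 = 1) →
      a % 2 ≠ b % 2 → c0 x ≠ c0 y := by
    intro x y a b h1 h2 h3 h5
    rw [h5] at h1
    have h6 : (a % 2 = 1 ↔ b % 2 = 1) := h1.symm.trans h2
    omega
  have hper0 : e l = e 0 := by
    have := he.per 0
    rwa [Nat.zero_add] at this
  have h4deg : ∀ v, 4 ≤ (nb G v).card := by
    intro v
    have h3 := hd v
    obtain ⟨x, hx⟩ : (nb G v).Nonempty := Finset.card_pos.mp (by omega)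
    have hvx := mem_nb.mp hx
    obtain ⟨hvx', hxx'⟩ := hF v x hvx
    set x' := F v x
    have h5 : ({x, x'} : Finset V).card ≤ 2 := Finset.card_le_two
    obtain ⟨y, hy, hy'⟩ := Finset.exists_mem_notMem_of_card_lt_card
      (show ({x, x'} : Finset V).card < (nb G v).card by omega)
    have hvy := mem_nb.mp hy
    obtain ⟨hvy', hyy'⟩ := hF v y hvy
    set y' := F v y
    simp only [Finset.mem_insert, Finset.mem_singleton, not_or] at hy'
    have n1 : y' ≠ x := by
      intro h
      exact hy'.2 (h4 v x y x' hvx.ne hvy hvx' (h ▸ hyy'.symm) hxx')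
    have n2 : y' ≠ x' := by
      intro h
      exact hy'.1 (h4 v x' y x hvx'.ne hvy hvx (h ▸ hyy'.symm) hxx'.symm)
    have hsub : ({x, x', y, y'} : Finset V) ⊆ nb G v := by
      intro z hz
      simp only [Finset.mem_insert, Finset.mem_singleton] at hz
      rcases hz with rfl | rfl | rfl | rfl
      · exact hx
      · exact mem_nb.mpr hvx'
      · exact hy
      · exact mem_nb.mpr hvy'
    have hcard : ({x, x', y, y'} : Finset V).card = 4 := by
      rw [Finset.card_insert_of_notMem, Finset.card_insert_of_notMem,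
        Finset.card_insert_of_notMem, Finset.card_singleton]
      · simpa using hyy'.ne
      · simp only [Finset.mem_insert, Finset.mem_singleton, not_or]
        exact ⟨fun h => hy'.2 h.symm, fun h => n2 h.symm⟩
      · simp only [Finset.mem_insert, Finset.mem_singleton, not_or]
        exact ⟨hxx'.ne, fun h => hy'.1 h.symm, fun h => n1 h.symm⟩
    rw [← hcard]
    exact Finset.card_le_card hsub
  -- an outside vertex completing a triangle of `S` is some `f i`
  have hpair : ∀ v, v ∉ S → ∀ g ∈ S, ∀ g' ∈ S, G.Adj v g → G.Adj v g' → G.Adj g g' →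
      ∃ i, v = f i := by
    intro v hv g hg g' hg' h1 h2 h3
    rcases hSmem g hg with ⟨a, _, rfl⟩ | ⟨a, _, _, rfl⟩ <;>
      rcases hSmem g' hg' with ⟨b, _, rfl⟩ | ⟨b, _, _, rfl⟩
    · obtain ⟨s, hs, hsk⟩ := he.repr hl0 a b
      rw [← he.eq_of_mod hsk] at h2 h3
      have hs0 : 0 < s := by
        rcases Nat.eq_zero_or_pos s with h | h
        · subst h; exact absurd h3 (G.loopless.irrefl _)
        · exact h
      rcases he.chord_cases hl hmin hs0 hs h3 with h | h
      · subst h
        exact ⟨a, h4 (e a) (e (a + 1)) v (f a) h3.ne h1.symm (hf1 a) h2.symm (hf2 a)⟩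
      · refine ⟨a + s, h4 (e (a + s)) (e (a + s + 1)) v (f (a + s)) (he.adj _).ne h2.symm
          (hf1 _) ?_ (hf2 _)⟩
        rw [show a + s + 1 = a + l by omega, he.per]
        exact h1.symm
    · exfalso
      rcases hadjf b a h3.symm with h | h
      · have h5 : e a = e b := he.eq_of_mod h
        rw [h5] at h1
        have := h4 (e b) (f b) v (e (b + 1)) (hf1 b).ne h1.symm (he.adj b) h2.symm (hf2 b).symm
        exact hv (this ▸ heS _)
      · have h5 : e a = e (b + 1) := he.eq_of_mod h
        rw [h5] at h1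
        have := h4 (e (b + 1)) (f b) v (e b) (hf2 b).ne h1.symm (he.adj b).symm h2.symm
          (hf1 b).symm
        exact hv (this ▸ heS _)
    · exfalso
      rcases hadjf a b h3 with h | h
      · have h5 : e b = e a := he.eq_of_mod h
        rw [h5] at h2
        have := h4 (e a) (f a) v (e (a + 1)) (hf1 a).ne h2.symm (he.adj a) h1.symm (hf2 a).symm
        exact hv (this ▸ heS _)
      · have h5 : e b = e (a + 1) := he.eq_of_mod h
        rw [h5] at h2
        have := h4 (e (a + 1)) (f a) v (e a) (hf2 a).ne h2.symm (he.adj a).symm h1.symm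
          (hf1 a).symm
        exact hv (this ▸ heS _)
    · exact absurd h3 (hff a b)
  have hint : ∀ v, v ∉ S → (nb G v ∩ S).card ≤ 2 := by
    intro v hv
    by_contra hcon
    push Not at hcon
    obtain ⟨x, y, z, hx, hy, hz, hxy, hxz, hyz⟩ := Finset.two_lt_card_iff.mp hcon
    simp only [Finset.mem_inter, mem_nb] at hx hy hz
    have hfi : ∃ i, v = f i := by
      by_cases a1 : G.Adj x y
      · exact hpair v hv x hx.2 y hy.2 hx.1 hy.1 a1
      by_cases a2 : G.Adj x z
      · exact hpair v hv x hx.2 z hz.2 hx.1 hz.1 a2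
      by_cases a3 : G.Adj y z
      · exact hpair v hv y hy.2 z hz.2 hy.1 hz.1 a3
      exact absurd ⟨v, x, y, z, hx.1, hy.1, hz.1, hxy, hxz, hyz, a1, a2, a3⟩ hc
    obtain ⟨i, rfl⟩ := hfi
    have honly : ∀ g ∈ S, G.Adj (f i) g → g = e i ∨ g = e (i + 1) := by
      intro g hg hadj
      rcases hSmem g hg with ⟨a, _, rfl⟩ | ⟨a, _, _, rfl⟩
      · rcases hadjf i a hadj with h | h
        · exact Or.inl (he.eq_of_mod h)
        · exact Or.inr (he.eq_of_mod h)
      · exact absurd hadj (hff i a)
    rcases honly x hx.2 hx.1 with h | h <;> rcases honly y hy.2 hy.1 with h' | h' <;>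
      rcases honly z hz.2 hz.1 with h'' | h''
    · exact hxy (h.trans h'.symm)
    · exact hxy (h.trans h'.symm)
    · exact hxz (h.trans h''.symm)
    · exact hyz (h'.trans h''.symm)
    · exact hyz (h'.trans h''.symm)
    · exact hxz (h.trans h''.symm)
    · exact hxy (h.trans h'.symm)
    · exact hxy (h.trans h'.symm)
  have hout : ∀ v, v ∉ S → 2 ≤ (nb G v \ S).card := by
    intro v hv
    have h1 := hint v hv
    have h2 := Finset.card_sdiff_add_card_inter (nb G v) S
    have h3 := h4deg v
    omega
  apply happy_of_set hconn hc hd S ⟨e 0, heS 0⟩ c0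
  · intro u hu
    rcases hSmem u hu with ⟨i, hi, rfl⟩ | ⟨i, hi, hT, rfl⟩
    · by_cases hT : T i
      · by_cases hi1 : i + 1 < l
        · exact ⟨f i, hfS i hi hT, e (i + 1), heS _, hf1 i, he.adj i,
            hne_of _ _ i (i + 1) (hc0f i hi) (hc0e _ hi1) (by omega)⟩
        · have hi2 : i + 1 = l := by omega
          have hlev : l % 2 = 0 := by
            rcases hT with h | h
            · exact h
            · omega
          refine ⟨f i, hfS i hi hT, e 0, heS _, hf1 i, ?_,
            hne_of _ _ i 0 (hc0f i hi) (hc0e _ hl0) (by omega)⟩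
          rw [← hper0, ← hi2]
          exact he.adj i
      · have hlo : l % 2 = 1 := by
          by_contra h
          exact hT (Or.inl (by omega))
        have hi3 : i = 0 ∨ i = l - 1 := by
          by_contra h
          exact hT (Or.inr (by omega))
        rcases hi3 with rfl | rfl
        · refine ⟨e 1, heS _, e (l - 1), heS _, he.adj 0, ?_,
            hne_of _ _ 1 (l - 1) (hc0e _ (by omega)) (hc0e _ (by omega)) (by omega)⟩
          have h5 := he.adj (l - 1)
          rw [show l - 1 + 1 = l by omega, hper0] at h5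
          exact h5.symm
        · refine ⟨e (l - 2), heS _, e 0, heS _, ?_, ?_,
            hne_of _ _ (l - 2) 0 (hc0e _ (by omega)) (hc0e _ hl0) (by omega)⟩
          · have h5 := he.adj (l - 2)
            rw [show l - 2 + 1 = l - 1 by omega] at h5
            exact h5.symm
          · have h5 := he.adj (l - 1)
            rw [show l - 1 + 1 = l by omega, hper0] at h5
            exact h5
    · by_cases hi1 : i + 1 < l
      · exact ⟨e i, heS _, e (i + 1), heS _, (hf1 i).symm, (hf2 i).symm,
          hne_of _ _ i (i + 1) (hc0e i hi) (hc0e _ hi1) (by omega)⟩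
      · have hi2 : i + 1 = l := by omega
        have hlev : l % 2 = 0 := by
          rcases hT with h | h
          · exact h
          · omega
        refine ⟨e i, heS _, e 0, heS _, (hf1 i).symm, ?_,
          hne_of _ _ i 0 (hc0e i hi) (hc0e _ hl0) (by omega)⟩
        rw [← hper0, ← hi2]
        exact (hf2 i).symm
  · intro v hv
    have := hout v hv
    omega
  · intro v w hv _ _ h1 _
    have := hout v hv
    omega

/-- every connected claw-free graph with minimum degree at least three has a vertex 2-colouring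
in which every vertex sees both colours -/
theorem exists_happy (hconn : G.Connected) (hc : ClawFree G) (hd : ∀ v, 3 ≤ (nb G v).card) :
    ∃ c, Happy G c := by
  by_cases h4 : NoC4 G
  · by_cases htri : ∀ x y, G.Adj x y → ∃ z, G.Adj x z ∧ G.Adj y z
    · exact happy_of_tri hconn hc hd h4 htri
    · push Not at htri
      obtain ⟨c, w, hcw, hno⟩ := htri
      exact happy_of_link hconn hc hd h4 hcw (fun x hx => hno x hx.1 hx.2)
  · unfold NoC4 at h4
    push Not at h4
    obtain ⟨u, v, x, y, huv, h1, h2, h3, h5, hxy⟩ := h4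
    exact happy_of_C4 hconn hc hd huv hxy h1 h2 h3 h5

end

end R93.TotDom
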