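import Pool.Agent.R93.TotDom.Basic

/-!
`FTD(G) ≥ 2 - 4/(n+2)` for connected claw-free graphs of minimum degree at least two.
-/

namespace R93.TotDom

open Finset

universe u

section
variable {V : Type u} [Fintype V] [DecidableEq V] {G : SimpleGraph V} [DecidableRel G.Adj]

lemma iso_le (hc : ClawFree G) (hd : ∀ v, 2 ≤ (nb G v).card) {I : Finset V} (hI : Indep G I) :
    2 * I.card ≤ 2 * (Nb G I).card := by
  have h := sum_deg_le hc hI ∅
  have h2 : ∑ i ∈ I, 2 ≤ ∑ i ∈ I, (nb G i \ ∅).card :=
    Finset.sum_le_sum (fun i _ => by simpa using hd i)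
  simp at h h2
  omega

lemma hall2 (hc : ClawFree G) (hd : ∀ v, 2 ≤ (nb G v).card) (U : Finset V) :
    U.card ≤ (Nb G U).card := by
  have h1 := iso_le hc hd (iso_indep (G := G) U)
  have h2 := card_Nb_ge (G := G) U
  have h3 := iso_card_add (G := G) U
  omega

/-- classification of tight sets -/
lemma tight_cases (hconn : G.Connected) (hc : ClawFree G) (hd : ∀ v, 2 ≤ (nb G v).card)
    {U : Finset V} (hne : U.Nonempty) (ht : (Nb G U).card = U.card) :
    U = Finset.univ ∨ (2 * U.card = Fintype.card V ∧ Nb G U = Finset.univ \ U) := by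
  set I := iso G U with hIdef
  have hI : Indep G I := iso_indep U
  have h1 := iso_le hc hd hI
  have h2 : (U \ I).card + (Nb G I).card ≤ (Nb G U).card := card_Nb_ge (G := G) U
  have h3 : I.card + (U \ I).card = U.card := iso_card_add (G := G) U
  have hIcard : (Nb G I).card = I.card := by omega
  have hNbU : Nb G U = (U \ I) ∪ Nb G I := by
    symm
    apply Finset.eq_of_subset_of_card_le
    · exact Finset.union_subset (sdiff_iso_subset U) (Nb_iso_subset U)
    · have h4 : ((U \ I) ∪ Nb G I).card = (U \ I).card + (Nb G I).card :=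
        Finset.card_union_of_disjoint ((Nb_iso_disj U).symm.mono_left Finset.sdiff_subset)
      omega
  rcases Finset.eq_empty_or_nonempty I with hIe | hIne
  · left
    have hU : Nb G U = U := by
      rw [hNbU, hIe]; simp [Nb]
    apply closed_eq_univ hconn hne
    intro v hv w hvw
    rw [← hU]
    exact mem_Nb.mpr ⟨v, hv, hvw⟩
  · right
    have hsum := sum_deg_le hc hI ∅
    simp only [Finset.sdiff_empty] at hsum
    -- every `y` in `Nb I` has exactly two neighbours in `I`
    have hdeg : ∀ y ∈ Nb G I, (I.filter (fun i => G.Adj y i)).card = 2 := by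
      by_contra hcon
      push Not at hcon
      obtain ⟨y, hy, hy2⟩ := hcon
      have hlt : (I.filter (fun i => G.Adj y i)).card < 2 :=
        lt_of_le_of_ne (card_nb_inter_le_two hc hI y) hy2
      have e1 : ∑ i ∈ I, (nb G i).card
          = ∑ y ∈ Nb G I, (I.filter (fun i => G.Adj y i)).card := by
        have h2 : ∀ i ∈ I, (nb G i).card
            = ∑ y ∈ Nb G I, if G.Adj y i then 1 else 0 := by
          intro i hi
          rw [← Finset.card_filter]
          congr 1
          ext y
          simp only [mem_nb, Finset.mem_filter, mem_Nb]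
          constructor
          · intro h; exact ⟨⟨i, hi, h⟩, h.symm⟩
          · rintro ⟨_, h⟩; exact h.symm
        rw [Finset.sum_congr rfl h2, Finset.sum_comm]
        apply Finset.sum_congr rfl
        intro y _
        rw [Finset.card_filter]
      have e2 : ∑ y ∈ Nb G I, (I.filter (fun i => G.Adj y i)).card < ∑ y ∈ Nb G I, 2 :=
        Finset.sum_lt_sum (fun y _ => card_nb_inter_le_two hc hI y) ⟨y, hy, hlt⟩
      have e3 : ∑ i ∈ I, 2 ≤ ∑ i ∈ I, (nb G i).card := Finset.sum_le_sum (fun i _ => hd i)
      simp at e2 e3
      omega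
    have hall : I ∪ Nb G I = Finset.univ := by
      apply closed_eq_univ hconn
      · exact hIne.mono Finset.subset_union_left
      · intro v hv w hvw
        rcases Finset.mem_union.mp hv with hvI | hvN
        · exact Finset.mem_union_right _ (mem_Nb.mpr ⟨v, hvI, hvw⟩)
        · have h2 := hdeg v hvN
          obtain ⟨a, b, hab, hset⟩ := Finset.card_eq_two.mp h2
          have ha : a ∈ I.filter (fun i => G.Adj v i) := by rw [hset]; simp
          have hb : b ∈ I.filter (fun i => G.Adj v i) := by rw [hset]; simp
          simp only [Finset.mem_filter] at ha hb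
          by_cases hwa : w = a
          · exact Finset.mem_union_left _ (hwa ▸ ha.1)
          by_cases hwb : w = b
          · exact Finset.mem_union_left _ (hwb ▸ hb.1)
          by_cases haw : G.Adj a w
          · exact Finset.mem_union_right _ (mem_Nb.mpr ⟨a, ha.1, haw⟩)
          by_cases hbw : G.Adj b w
          · exact Finset.mem_union_right _ (mem_Nb.mpr ⟨b, hb.1, hbw⟩)
          exact absurd ⟨v, a, b, w, ha.2, hb.2, hvw, hab, Ne.symm hwa, Ne.symm hwb,
            hI a ha.1 b hb.1, haw, hbw⟩ hc
    have hUI : U = I := by
      apply Finset.Subset.antisymm _ (Finset.filter_subset _ _)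
      intro x hx
      have hx' : x ∈ I ∪ Nb G I := by rw [hall]; exact Finset.mem_univ x
      rcases Finset.mem_union.mp hx' with h | h
      · exact h
      · exact absurd hx (Finset.disjoint_left.mp (Nb_iso_disj U) h)
    have hdis : Disjoint I (Nb G I) := by
      rw [Finset.disjoint_left]
      intro x hx hx'
      obtain ⟨y, hy, hadj⟩ := mem_Nb.mp hx'
      exact hI y hy x hx hadj
    constructor
    · have h4 : (I ∪ Nb G I).card = Fintype.card V := by rw [hall]; rfl
      rw [Finset.card_union_of_disjoint hdis] at h4
      rw [hUI]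
      omega
    · rw [hUI]
      ext x
      simp only [Finset.mem_sdiff, Finset.mem_univ, true_and]
      constructor
      · intro h h'; exact Finset.disjoint_left.mp hdis h' h
      · intro h
        have hx' : x ∈ I ∪ Nb G I := by rw [hall]; exact Finset.mem_univ x
        rcases Finset.mem_union.mp hx' with h' | h'
        · exact absurd h' h
        · exact h'

lemma inter_tight (hc : ClawFree G) (hd : ∀ v, 2 ≤ (nb G v).card) {A B : Finset V}
    (hA : (Nb G A).card = A.card) (hB : (Nb G B).card = B.card) :
    (Nb G (A ∩ B)).card = (A ∩ B).card := by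
  have h1 := hall2 hc hd (A ∪ B)
  have h2 := hall2 hc hd (A ∩ B)
  have h3 : Nb G (A ∪ B) = Nb G A ∪ Nb G B := by
    ext x; simp only [mem_Nb, Finset.mem_union]
    constructor
    · rintro ⟨v, hv | hv, h⟩
      · exact Or.inl ⟨v, hv, h⟩
      · exact Or.inr ⟨v, hv, h⟩
    · rintro (⟨v, hv, h⟩ | ⟨v, hv, h⟩)
      · exact ⟨v, Or.inl hv, h⟩
      · exact ⟨v, Or.inr hv, h⟩
  have h4 : Nb G (A ∩ B) ⊆ Nb G A ∩ Nb G B :=
    Finset.subset_inter (Nb_mono Finset.inter_subset_left) (Nb_mono Finset.inter_subset_right)
  have h5 := Finset.card_le_card h4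
  have h6 := Finset.card_union_add_card_inter (Nb G A) (Nb G B)
  have h7 := Finset.card_union_add_card_inter A B
  rw [h3] at h1
  omega

/-- a family of pairwise disjoint defect sets, each meeting every nonempty tight set, gives a
lower bound for `FTD`. -/
lemma defect_family [Nonempty V] (hc : ClawFree G) (hd : ∀ v, 2 ≤ (nb G v).card)
    (φ : V → V) (hφ : Function.Injective φ) (hN : ∀ v, G.Adj v (φ v))
    (m : ℕ) (hm : 0 < m) (D : Fin m → Finset V)
    (hdisj : ∀ v j k, v ∈ D j → v ∈ D k → j = k)
    (hhit : ∀ j (U : Finset V), U.Nonempty → (Nb G U).card = U.card → ∃ v ∈ U, v ∈ D j) :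
    (2 * m : ℝ) / (m + 1) ≤ FTD G := by
  classical
  have hcol : ∀ j, ∃ c : V → Bool, ∀ v, v ∉ D j → ∃ a b, G.Adj v a ∧ G.Adj v b ∧ c a ≠ c b := by
    intro j
    obtain ⟨c, _, hcc⟩ := ext_coloring (G := G) φ hφ (D j) (fun v _ => hN v) (by
      intro U hne hdis
      have hnt : (Nb G U).card ≠ U.card := by
        intro ht
        obtain ⟨v, hv, hvD⟩ := hhit j U hne ht
        exact Finset.disjoint_left.mp hdis hv hvD
      have h1 := hall2 hc hd U
      have h2 : (U.image φ).card < (Nb G U).card := by
        rw [Finset.card_image_of_injective _ hφ]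
        omega
      obtain ⟨y, hy, hy'⟩ := Finset.exists_mem_notMem_of_card_lt_card h2
      exact ⟨y, hy, hy'⟩) (fun _ => true)
    exact ⟨c, hcc⟩
  choose c hc' using hcol
  have : Nonempty (Fin m) := ⟨⟨0, hm⟩⟩
  let S : Fin m × Bool → Finset V := fun p =>
    Finset.univ.filter (fun v => c p.1 v = p.2) ∪ (D p.1).image φ
  have hTD : ∀ p, IsTD G (S p) := by
    rintro ⟨j, b⟩ v
    by_cases hv : v ∈ D j
    · exact ⟨φ v, Finset.mem_union_right _ (Finset.mem_image_of_mem _ hv), hN v⟩
    · obtain ⟨x, y, hx, hy, hxy⟩ := hc' j v hv
      by_cases hxb : c j x = b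
      · exact ⟨x, Finset.mem_union_left _ (by simp [hxb]), hx⟩
      · refine ⟨y, Finset.mem_union_left _ ?_, hy⟩
        simp only [Finset.mem_filter, Finset.mem_univ, true_and]
        revert hxy hxb
        cases c j x <;> cases c j y <;> cases b <;> simp
  have hmul : ∀ v, (Finset.univ.filter (fun p => v ∈ S p)).card ≤ m + 1 := by
    intro v
    have h1 : (Finset.univ.filter (fun p : Fin m × Bool => v ∈ S p))
        ⊆ (Finset.univ.image (fun j : Fin m => (j, c j v)))
          ∪ ((Finset.univ.filter (fun j : Fin m => v ∈ (D j).image φ)).image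
              (fun j => (j, !(c j v)))) := by
      rintro ⟨j, b⟩ hp
      simp only [Finset.mem_filter, Finset.mem_univ, true_and, S, Finset.mem_union] at hp
      by_cases hb : c j v = b
      · apply Finset.mem_union_left
        simp [hb]
      · apply Finset.mem_union_right
        rw [Finset.mem_image]
        refine ⟨j, ?_, ?_⟩
        · simp only [Finset.mem_filter, Finset.mem_univ, true_and]
          rcases hp with h | h
          · exact absurd h hb
          · exact h
        · revert hb
          cases c j v <;> cases b <;> simp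
    refine le_trans (Finset.card_le_card h1) ?_
    refine le_trans (Finset.card_union_le _ _) ?_
    have h2 : (Finset.univ.image (fun j : Fin m => (j, c j v))).card ≤ m := by
      refine le_trans Finset.card_image_le ?_
      simp
    have h3 : ((Finset.univ.filter (fun j : Fin m => v ∈ (D j).image φ)).image
              (fun j => (j, !(c j v)))).card ≤ 1 := by
      refine le_trans Finset.card_image_le ?_
      rw [Finset.card_le_one]
      intro j hj k hk
      simp only [Finset.mem_filter, Finset.mem_univ, true_and, Finset.mem_image] at hj hk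
      obtain ⟨x, hx, hxv⟩ := hj
      obtain ⟨y, hy, hyv⟩ := hk
      have : x = y := hφ (hxv.trans hyv.symm)
      exact hdisj x j k hx (this ▸ hy)
    omega
  have hfin := le_FTD_of_family (G := G) S hTD (m + 1) (by
    intro v
    refine le_trans (le_of_eq ?_) (hmul v)
    congr 1
    ext p
    simp)
  have hcard : (Fintype.card (Fin m × Bool) : ℝ) = 2 * m := by
    simp [Fintype.card_prod, mul_comm]
  rw [hcard] at hfin
  push_cast at hfin
  exact hfin

theorem FTD_ge (hconn : G.Connected) (hc : ClawFree G) (hd : ∀ v, 2 ≤ (nb G v).card) :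
    2 - 4 / ((Fintype.card V : ℝ) + 2) ≤ FTD G := by
  classical
  have : Nonempty V := hconn.nonempty
  have hnpos : 0 < Fintype.card V := Fintype.card_pos
  obtain ⟨φ, hφ, -, hN⟩ := exists_bij (G := G) ∅ ∅ id (by simp) (by simp) (by
    intro U _
    simpa using hall2 hc hd U)
  have hN' : ∀ v, G.Adj v (φ v) := fun v => hN v (by simp)
  by_cases hprop : ∃ U : Finset V, U.Nonempty ∧ U ≠ Finset.univ ∧ (Nb G U).card = U.card
  · obtain ⟨U0, hne, hnu, ht⟩ := hprop
    obtain h | ⟨hcard, hNb⟩ := tight_cases hconn hc hd hne ht
    · exact absurd h hnu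
    set m := U0.card with hm
    have hmpos : 0 < m := Finset.card_pos.mpr hne
    let e : Fin m ≃ {x // x ∈ U0} := (U0.equivFinOfCardEq hm.symm).symm
    have hφU : ∀ x ∈ U0, φ x ∉ U0 := by
      intro x hx hx'
      have : φ x ∈ Nb G U0 := mem_Nb.mpr ⟨x, hx, hN' x⟩
      rw [hNb] at this
      simp at this
      exact this hx'
    have key := defect_family hc hd φ hφ hN' m hmpos
      (fun j => {(e j : V), φ (e j : V)}) (by
        intro v j k hj hk
        simp only [Finset.mem_insert, Finset.mem_singleton] at hj hk
        have hej := (e j).2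
        have hek := (e k).2
        apply e.injective
        apply Subtype.ext
        rcases hj with rfl | hj <;> rcases hk with hk | hk
        · exact hk
        · exact absurd hej (hk ▸ hφU _ hek)
        · exact absurd hek (hk ▸ hj ▸ hφU _ hej)
        · exact hφ (hj.symm.trans hk)) (by
        intro j U1 hne1 ht1
        obtain h1 | ⟨hcard1, hNb1⟩ := tight_cases hconn hc hd hne1 ht1
        · exact ⟨(e j : V), h1 ▸ Finset.mem_univ _, by simp⟩
        have hint := inter_tight hc hd ht ht1
        rcases Finset.eq_empty_or_nonempty (U0 ∩ U1) with he | hne2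
        · refine ⟨φ (e j : V), ?_, by simp⟩
          have hsub : U1 ⊆ Finset.univ \ U0 := by
            intro x hx
            simp only [Finset.mem_sdiff, Finset.mem_univ, true_and]
            intro hx0
            have : x ∈ U0 ∩ U1 := Finset.mem_inter.mpr ⟨hx0, hx⟩
            rw [he] at this
            simp at this
          have heq : U1 = Finset.univ \ U0 := by
            apply Finset.eq_of_subset_of_card_le hsub
            rw [Finset.card_univ_sdiff]
            omega
          rw [heq]
          simp only [Finset.mem_sdiff, Finset.mem_univ, true_and]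
          exact hφU _ (e j).2
        · refine ⟨(e j : V), ?_, by simp⟩
          obtain h2 | ⟨hcard2, _⟩ := tight_cases hconn hc hd hne2 hint
          · have : (e j : V) ∈ U0 ∩ U1 := by rw [h2]; exact Finset.mem_univ _
            exact (Finset.mem_inter.mp this).2
          · have heq : U0 ∩ U1 = U0 := by
              apply Finset.eq_of_subset_of_card_le Finset.inter_subset_left
              omega
            have : (e j : V) ∈ U0 ∩ U1 := by rw [heq]; exact (e j).2
            exact (Finset.mem_inter.mp this).2)
    refine le_trans (le_of_eq ?_) key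
    have h2 : (Fintype.card V : ℝ) = 2 * m := by exact_mod_cast hcard.symm
    rw [h2]
    have : (m : ℝ) + 1 ≠ 0 := by positivity
    field_simp
    ring
  · push Not at hprop
    set n := Fintype.card V with hn
    let e : Fin n ≃ V := (Fintype.equivFin V).symm
    have key := defect_family hc hd φ hφ hN' n hnpos (fun j => {e j}) (by
        intro v j k hj hk
        simp only [Finset.mem_singleton] at hj hk
        exact e.injective (hj.symm.trans hk)) (by
        intro j U hne ht
        have hU : U = Finset.univ := by
          by_contra h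
          exact hprop U hne h ht
        exact ⟨e j, hU ▸ Finset.mem_univ _, by simp⟩)
    refine le_trans ?_ key
    have hnR : (0 : ℝ) < n := by exact_mod_cast hnpos
    rw [show (2 : ℝ) - 4 / ((n : ℝ) + 2) = 2 * n / (n + 2) by field_simp; ring]
    apply div_le_div_of_nonneg_left (by positivity) (by positivity)
    linarith

end

end R93.TotDom
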