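import Pool.Agent.R93.TotDom.Basic

/-!
Claw-free graphs of minimum degree at least three: strong Hall property, the case of a 4-cycle and
the case of an edge in no triangle.
-/

namespace R93.TotDom

open Finset

universe u

/-- every vertex sees both colours -/
def Happy {V : Type u} (G : SimpleGraph V) (c : V → Bool) : Prop :=
  ∀ v, ∃ a b, G.Adj v a ∧ G.Adj v b ∧ c a ≠ c b

section
variable {V : Type u} [Fintype V] {G : SimpleGraph V}

lemma two_le_FTD_of_happy [Nonempty V] {c : V → Bool} (h : Happy G c) : 2 ≤ FTD G := by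
  classical
  have key := le_FTD_of_family (G := G) (ι := Bool)
    (fun b => Finset.univ.filter (fun v => c v = b)) (by
      intro b v
      obtain ⟨x, y, hx, hy, hxy⟩ := h v
      by_cases hxb : c x = b
      · exact ⟨x, by simp [hxb], hx⟩
      · refine ⟨y, ?_, hy⟩
        simp only [Finset.mem_filter, Finset.mem_univ, true_and]
        revert hxy hxb
        cases c x <;> cases c y <;> cases b <;> simp) 1 (by
      intro v
      rw [Finset.card_le_one]
      intro a ha b hb
      simp at ha hb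
      rw [← ha, ← hb])
  simpa using key

end

section
variable {V : Type u} [Fintype V] [DecidableEq V] {G : SimpleGraph V} [DecidableRel G.Adj]

lemma three_iso_le (hc : ClawFree G) (hd : ∀ v, 3 ≤ (nb G v).card) {I : Finset V}
    (hI : Indep G I) : 3 * I.card ≤ 2 * (Nb G I).card := by
  have h := sum_deg_le hc hI ∅
  have h2 : ∑ i ∈ I, 3 ≤ ∑ i ∈ I, (nb G i \ ∅).card :=
    Finset.sum_le_sum (fun i _ => by simpa using hd i)
  simp at h h2
  omega

lemma strong_hall (hconn : G.Connected) (hc : ClawFree G) (hd : ∀ v, 3 ≤ (nb G v).card)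
    {U : Finset V} (hne : U.Nonempty) (hnu : U ≠ Finset.univ) : U.card < (Nb G U).card := by
  have h1 := three_iso_le hc hd (iso_indep (G := G) U)
  have h2 := card_Nb_ge (G := G) U
  have h3 := iso_card_add (G := G) U
  rcases Finset.eq_empty_or_nonempty (iso G U) with hIe | hIne
  · by_contra hcon
    have h4 : U ⊆ Nb G U := by
      have := sdiff_iso_subset (G := G) U
      rwa [hIe, Finset.sdiff_empty] at this
    have h5 : U = Nb G U := Finset.eq_of_subset_of_card_le h4 (by omega)
    apply hnu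
    apply closed_eq_univ hconn hne
    intro v hv w hvw
    rw [h5]
    exact mem_Nb.mpr ⟨v, hv, hvw⟩
  · have := Finset.card_pos.mpr hIne
    omega

/-- extension from a partial colouring of `X0` satisfying the vertices of `U0` -/
lemma happy_of_partial (hconn : G.Connected) (hc : ClawFree G) (hd : ∀ v, 3 ≤ (nb G v).card)
    (U0 : Finset V) (hU0 : U0.Nonempty) (g : V → V) (hg : Set.InjOn g U0) (c0 : V → Bool)
    (hsat : ∀ u ∈ U0, ∃ a ∈ U0.image g, ∃ b ∈ U0.image g, G.Adj u a ∧ G.Adj u b ∧ c0 a ≠ c0 b)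
    (hH : ∀ U : Finset V, Disjoint U U0 → U.card ≤ (Nb G U \ U0.image g).card) :
    ∃ c, Happy G c := by
  obtain ⟨φ, hφ, hφg, hN⟩ := exists_bij (G := G) U0 (U0.image g) g hg
    (fun u hu => Finset.mem_image_of_mem g hu) hH
  obtain ⟨c, hc0, hcc⟩ := ext_coloring (G := G) φ hφ U0 hN (by
    intro U hne hdis
    have hnu : U ≠ Finset.univ := by
      rintro rfl
      obtain ⟨x, hx⟩ := hU0
      exact Finset.disjoint_left.mp hdis (Finset.mem_univ x) hx
    have h1 := strong_hall hconn hc hd hne hnu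
    have h2 : (U.image φ).card < (Nb G U).card := by
      rw [Finset.card_image_of_injective _ hφ]; exact h1
    obtain ⟨y, hy, hy'⟩ := Finset.exists_mem_notMem_of_card_lt_card h2
    exact ⟨y, hy, hy'⟩) c0
  have hcX : ∀ x ∈ U0.image g, c x = c0 x := by
    intro x hx
    obtain ⟨u, hu, rfl⟩ := Finset.mem_image.mp hx
    rw [← hφg u hu]
    exact hc0 u hu
  refine ⟨c, fun v => ?_⟩
  by_cases hv : v ∈ U0
  · obtain ⟨a, ha, b, hb, h1, h2, h3⟩ := hsat v hv
    exact ⟨a, b, h1, h2, by rw [hcX a ha, hcX b hb]; exact h3⟩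
  · exact hcc v hv

/-- sizes of neighbourhoods of independent sets -/
lemma indep_cases (hconn : G.Connected) (hc : ClawFree G) (hd : ∀ v, 3 ≤ (nb G v).card)
    {I : Finset V} (hI : Indep G I) (hne : I.Nonempty) :
    I.card + 2 ≤ (Nb G I).card ∨ (I.card = 2 ∧ I ∪ Nb G I = Finset.univ) := by
  have h1 := three_iso_le hc hd hI
  have hpos := Finset.card_pos.mpr hne
  obtain ⟨i0, hi0⟩ := hne
  have h3 : 3 ≤ (Nb G I).card := by
    refine le_trans (hd i0) (Finset.card_le_card ?_)
    intro y hy
    exact mem_Nb.mpr ⟨i0, hi0, mem_nb.mp hy⟩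
  by_cases h4 : I.card + 2 ≤ (Nb G I).card
  · exact Or.inl h4
  · right
    have h5 : I.card = 2 := by omega
    have h6 : (Nb G I).card = 3 := by omega
    refine ⟨h5, ?_⟩
    obtain ⟨a, b, hab, hset⟩ := Finset.card_eq_two.mp h5
    have ha : a ∈ I := by rw [hset]; simp
    have hb : b ∈ I := by rw [hset]; simp
    have hnb : ∀ i ∈ I, nb G i = Nb G I := by
      intro i hi
      apply Finset.eq_of_subset_of_card_le
      · intro y hy
        exact mem_Nb.mpr ⟨i, hi, mem_nb.mp hy⟩
      · rw [h6]; exact hd i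
    apply closed_eq_univ hconn
    · exact ⟨i0, Finset.mem_union_left _ hi0⟩
    · intro v hv w hvw
      rcases Finset.mem_union.mp hv with hvI | hvN
      · exact Finset.mem_union_right _ (mem_Nb.mpr ⟨v, hvI, hvw⟩)
      · have hva : G.Adj v a := by
          have : v ∈ nb G a := by rw [hnb a ha]; exact hvN
          exact (mem_nb.mp this).symm
        have hvb : G.Adj v b := by
          have : v ∈ nb G b := by rw [hnb b hb]; exact hvN
          exact (mem_nb.mp this).symm
        by_cases hwa : w = a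
        · exact Finset.mem_union_left _ (hwa ▸ ha)
        by_cases hwb : w = b
        · exact Finset.mem_union_left _ (hwb ▸ hb)
        by_cases haw : G.Adj a w
        · exact Finset.mem_union_right _ (mem_Nb.mpr ⟨a, ha, haw⟩)
        by_cases hbw : G.Adj b w
        · exact Finset.mem_union_right _ (mem_Nb.mpr ⟨b, hb, hbw⟩)
        exact absurd ⟨v, a, b, w, hva, hvb, hvw, hab, Ne.symm hwa, Ne.symm hwb,
          hI a ha b hb, haw, hbw⟩ hc

/-- the case of a 4-cycle -/
lemma happy_of_C4 (hconn : G.Connected) (hc : ClawFree G) (hd : ∀ v, 3 ≤ (nb G v).card)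
    {u1 u2 x1 x2 : V} (hu : u1 ≠ u2) (hx : x1 ≠ x2) (h11 : G.Adj u1 x1) (h12 : G.Adj u1 x2)
    (h21 : G.Adj u2 x1) (h22 : G.Adj u2 x2) : ∃ c, Happy G c := by
  have himg : ({u1, u2} : Finset V).image (fun v => if v = u1 then x1 else x2) = {x1, x2} := by
    rw [Finset.image_insert, Finset.image_singleton]
    simp [hu.symm]
  apply happy_of_partial hconn hc hd {u1, u2} ⟨u1, by simp⟩ (fun v => if v = u1 then x1 else x2)
    _ (fun x => decide (x = x1))
  · rw [himg]
    intro u hu'
    refine ⟨x1, by simp, x2, by simp, ?_⟩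
    simp only [Finset.mem_insert, Finset.mem_singleton] at hu'
    rcases hu' with rfl | rfl
    · exact ⟨h11, h12, by simp [hx.symm]⟩
    · exact ⟨h21, h22, by simp [hx.symm]⟩
  · rw [himg]
    intro U hdis
    have hu1U : u1 ∉ U := fun h => Finset.disjoint_left.mp hdis h (by simp)
    have hu2U : u2 ∉ U := fun h => Finset.disjoint_left.mp hdis h (by simp)
    have hne1 : u1 ≠ x1 := h11.ne
    have hne2 : u1 ≠ x2 := h12.ne
    have hne3 : u2 ≠ x1 := h21.ne
    have hne4 : u2 ≠ x2 := h22.ne
    have hXc : ({x1, x2} : Finset V).card = 2 := Finset.card_pair hx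
    rcases Finset.eq_empty_or_nonempty (iso G U) with hIe | hIne
    · have hsub : U ⊆ Nb G U := by
        have := sdiff_iso_subset (G := G) U
        rwa [hIe, Finset.sdiff_empty] at this
      by_cases hxU : x1 ∈ U ∨ x2 ∈ U
      · have hu1N : u1 ∈ Nb G U := by
          rcases hxU with h | h
          · exact mem_Nb.mpr ⟨x1, h, h11.symm⟩
          · exact mem_Nb.mpr ⟨x2, h, h12.symm⟩
        have hu2N : u2 ∈ Nb G U := by
          rcases hxU with h | h
          · exact mem_Nb.mpr ⟨x1, h, h21.symm⟩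
          · exact mem_Nb.mpr ⟨x2, h, h22.symm⟩
        have h1 : (U \ {x1, x2}) ∪ {u1, u2} ⊆ Nb G U \ {x1, x2} := by
          intro y hy
          simp only [Finset.mem_union, Finset.mem_sdiff, Finset.mem_insert,
            Finset.mem_singleton, not_or] at hy ⊢
          rcases hy with ⟨h, h'⟩ | h | h
          · exact ⟨hsub h, h'⟩
          · subst h; exact ⟨hu1N, hne1, hne2⟩
          · subst h; exact ⟨hu2N, hne3, hne4⟩
        have h2 := Finset.card_le_card h1
        have h3 : Disjoint (U \ {x1, x2}) ({u1, u2} : Finset V) := by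
          rw [Finset.disjoint_left]
          intro y hy hy'
          simp only [Finset.mem_sdiff, Finset.mem_insert, Finset.mem_singleton] at hy hy'
          rcases hy' with rfl | rfl
          · exact hu1U hy.1
          · exact hu2U hy.1
        rw [Finset.card_union_of_disjoint h3, Finset.card_pair hu] at h2
        have h4 := Finset.le_card_sdiff ({x1, x2} : Finset V) U
        omega
      · push Not at hxU
        apply Finset.card_le_card
        intro y hy
        simp only [Finset.mem_sdiff, Finset.mem_insert, Finset.mem_singleton, not_or]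
        exact ⟨hsub hy, fun h => hxU.1 (h ▸ hy), fun h => hxU.2 (h ▸ hy)⟩
    · rcases indep_cases hconn hc hd (iso_indep (G := G) U) hIne with h | ⟨h2, hun⟩
      · have h5 := card_Nb_ge (G := G) U
        have h6 := iso_card_add (G := G) U
        have h7 := Finset.le_card_sdiff ({x1, x2} : Finset V) (Nb G U)
        omega
      · have hUI : U = iso G U := by
          apply Finset.Subset.antisymm _ (Finset.filter_subset _ _)
          intro x hx'
          have hx'' : x ∈ iso G U ∪ Nb G (iso G U) := by rw [hun]; exact Finset.mem_univ x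
          rcases Finset.mem_union.mp hx'' with h | h
          · exact h
          · exact absurd hx' (Finset.disjoint_left.mp (Nb_iso_disj U) h)
        have hu1N : u1 ∈ Nb G U := by
          have : u1 ∈ iso G U ∪ Nb G (iso G U) := by rw [hun]; exact Finset.mem_univ _
          rw [← hUI] at this
          rcases Finset.mem_union.mp this with h | h
          · exact absurd h hu1U
          · exact h
        have hu2N : u2 ∈ Nb G U := by
          have : u2 ∈ iso G U ∪ Nb G (iso G U) := by rw [hun]; exact Finset.mem_univ _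
          rw [← hUI] at this
          rcases Finset.mem_union.mp this with h | h
          · exact absurd h hu2U
          · exact h
        rw [hUI, h2, ← hUI, ← Finset.card_pair hu]
        apply Finset.card_le_card
        intro y hy
        simp only [Finset.mem_sdiff, Finset.mem_insert, Finset.mem_singleton, not_or] at hy ⊢
        rcases hy with h | h
        · subst h; exact ⟨hu1N, hne1, hne2⟩
        · subst h; exact ⟨hu2N, hne3, hne4⟩
  · intro a ha b hb hab
    simp only [Finset.coe_insert, Finset.coe_singleton, Set.mem_insert_iff,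
      Set.mem_singleton_iff] at ha hb
    rcases ha with rfl | rfl <;> rcases hb with rfl | rfl
    · rfl
    · simp [hu.symm, hx] at hab
    · simp [hu.symm, hx.symm] at hab
    · rfl

/-- a well coloured set `S` such that the outside vertices have enough neighbours outside `S` -/
lemma happy_of_set (hconn : G.Connected) (hc : ClawFree G) (hd : ∀ v, 3 ≤ (nb G v).card)
    (S : Finset V) (hS : S.Nonempty) (c0 : V → Bool)
    (hsat : ∀ u ∈ S, ∃ a ∈ S, ∃ b ∈ S, G.Adj u a ∧ G.Adj u b ∧ c0 a ≠ c0 b)
    (h1 : ∀ v, v ∉ S → 1 ≤ (nb G v \ S).card)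
    (h2 : ∀ v w, v ∉ S → w ∉ S → v ≠ w → (nb G v \ S).card = 1 → (nb G w \ S).card = 1 →
      G.Adj v w) : ∃ c, Happy G c := by
  apply happy_of_partial hconn hc hd S hS id (Function.injective_id.injOn) c0
  · simpa using hsat
  · intro U hdis
    rw [Finset.image_id]
    set I := iso G U with hI
    have hIind : Indep G I := iso_indep U
    have hIU : I ⊆ U := Finset.filter_subset _ _
    have hIS : ∀ i ∈ I, i ∉ S := fun i hi hiS => Finset.disjoint_left.mp hdis (hIU hi) hiS
    have h3 : I.card + (U \ I).card = U.card := iso_card_add (G := G) U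
    have h4 : (U \ I).card + (Nb G I \ S).card ≤ (Nb G U \ S).card := by
      rw [← Finset.card_union_of_disjoint]
      · apply Finset.card_le_card
        intro y hy
        simp only [Finset.mem_union, Finset.mem_sdiff] at hy ⊢
        rcases hy with ⟨h, h'⟩ | ⟨h, h'⟩
        · refine ⟨sdiff_iso_subset U (Finset.mem_sdiff.mpr ⟨h, h'⟩), ?_⟩
          exact fun hyS => Finset.disjoint_left.mp hdis h hyS
        · exact ⟨Nb_iso_subset U h, h'⟩
      · exact (Nb_iso_disj U).symm.mono Finset.sdiff_subset Finset.sdiff_subset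
    have h5 := sum_deg_le hc hIind S
    have h6 : 2 * I.card ≤ ∑ i ∈ I, (nb G i \ S).card + 1 := by
      by_cases hex : ∃ i0 ∈ I, (nb G i0 \ S).card = 1
      · obtain ⟨i0, hi0, hi1⟩ := hex
        have h7 : ∑ i ∈ I.erase i0, 2 ≤ ∑ i ∈ I.erase i0, (nb G i \ S).card := by
          apply Finset.sum_le_sum
          intro i hi
          have hi' := Finset.mem_erase.mp hi
          have h8 := h1 i (hIS i hi'.2)
          by_contra hcon
          have h9 : (nb G i \ S).card = 1 := by omega
          exact hIind i hi'.2 i0 hi0 (h2 i i0 (hIS i hi'.2) (hIS i0 hi0) hi'.1 h9 hi1)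
        have h8 := Finset.add_sum_erase I (fun i => (nb G i \ S).card) hi0
        simp only [Finset.sum_const, smul_eq_mul, Finset.card_erase_of_mem hi0] at h7
        have h9 : 0 < I.card := Finset.card_pos.mpr ⟨i0, hi0⟩
        omega
      · push Not at hex
        have h7 : ∑ i ∈ I, 2 ≤ ∑ i ∈ I, (nb G i \ S).card := by
          apply Finset.sum_le_sum
          intro i hi
          have h8 := h1 i (hIS i hi)
          have h9 := hex i hi
          omega
        simp at h7
        omega
    omega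

/-- any two distinct vertices have at most one common neighbour -/
def NoC4 (G : SimpleGraph V) : Prop :=
  ∀ u v x y, u ≠ v → G.Adj u x → G.Adj u y → G.Adj v x → G.Adj v y → x = y

/-- neighbourhood of an end of an edge that is in no triangle -/
lemma nb_link (hc : ClawFree G) (hd : ∀ v, 3 ≤ (nb G v).card) (h4 : NoC4 G) {c w : V}
    (hcw : G.Adj c w) (hno : ∀ x, ¬ (G.Adj c x ∧ G.Adj w x)) :
    ∃ a b, a ≠ b ∧ G.Adj c a ∧ G.Adj c b ∧ G.Adj a b ∧ a ≠ w ∧ b ≠ w ∧
      ∀ x, G.Adj c x → x = a ∨ x = b ∨ x = w := by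
  have hwm : w ∈ nb G c := mem_nb.mpr hcw
  have h1 : 1 < ((nb G c).erase w).card := by
    rw [Finset.card_erase_of_mem hwm]
    have := hd c
    omega
  obtain ⟨a, ha, b, hb, hab⟩ := Finset.one_lt_card.mp h1
  simp only [Finset.mem_erase, mem_nb] at ha hb
  have hadj : ∀ x y, x ≠ w → y ≠ w → G.Adj c x → G.Adj c y → x ≠ y → G.Adj x y := by
    intro x y hxw hyw hcx hcy hxy
    by_contra hcon
    apply hc
    refine ⟨c, x, y, w, hcx, hcy, hcw, hxy, hxw, hyw, hcon, ?_, ?_⟩
    · intro h; exact hno x ⟨hcx, h.symm⟩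
    · intro h; exact hno y ⟨hcy, h.symm⟩
  refine ⟨a, b, hab, ha.2, hb.2, hadj a b ha.1 hb.1 ha.2 hb.2 hab, ha.1, hb.1, ?_⟩
  intro x hcx
  by_contra hcon
  push Not at hcon
  obtain ⟨hxa, hxb, hxw⟩ := hcon
  exact hab (h4 c x a b hcx.ne ha.2 hb.2 (hadj x a hxw ha.1 hcx ha.2 hxa)
    (hadj x b hxw hb.1 hcx hb.2 hxb))

/-- the eight vertex configuration -/
lemma happy_S8 (hconn : G.Connected) (hc : ClawFree G) (hd : ∀ v, 3 ≤ (nb G v).card)
    (h4 : NoC4 G) {c w s b t q i z : V}
    (hcw : G.Adj c w) (hcs : G.Adj c s) (hcb : G.Adj c b) (hsb : G.Adj s b)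
    (hNc : ∀ x, G.Adj c x → x = s ∨ x = b ∨ x = w)
    (hwt : G.Adj w t) (hwq : G.Adj w q) (htq : G.Adj t q)
    (hNw : ∀ x, G.Adj w x → x = t ∨ x = q ∨ x = c)
    (his : G.Adj i s) (hit : G.Adj i t) (hiz : G.Adj i z)
    (hNi : ∀ x, G.Adj i x → x = s ∨ x = t ∨ x = z)
    (hzs : G.Adj z s) (hst : s ≠ t) (hsq : s ≠ q) (hbt : b ≠ t) (hbq : b ≠ q)
    (hic : i ≠ c) (hiw : i ≠ w) (hzc : z ≠ c) (hzw : z ≠ w) (hzb : z ≠ b) (hzt : z ≠ t)
    (hzq : z ≠ q) (hib : i ≠ b) (hiq : i ≠ q) (hsw : s ≠ w) (hbw : b ≠ w) (htc : t ≠ c)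
    (hqc : q ≠ c) : ∃ c, Happy G c := by
  have e1 : i ≠ s := his.ne
  have e2 : i ≠ t := hit.ne
  have e3 : i ≠ z := hiz.ne
  have e4 : z ≠ s := hzs.ne
  have e5 : s ≠ b := hsb.ne
  have e6 : c ≠ s := hcs.ne
  have e7 : c ≠ b := hcb.ne
  have e8 : c ≠ w := hcw.ne
  have e9 : w ≠ t := hwt.ne
  have e10 : w ≠ q := hwq.ne
  have e11 : t ≠ q := htq.ne
  have nci : ¬ G.Adj c i := fun h => by
    rcases hNc i h with h | h | h
    · exact e1 h
    · exact hib h
    · exact hiw h
  have nwi : ¬ G.Adj w i := fun h => by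
    rcases hNw i h with h | h | h
    · exact e2 h
    · exact hiq h
    · exact hic h
  have nst : ¬ G.Adj s t := fun h => htc (h4 s w c t hsw hcs.symm h hcw.symm hwt).symm
  have hNs : ∀ x, G.Adj s x → x = b ∨ x = c ∨ x = i ∨ x = z := by
    intro y hy
    by_contra hcon
    push Not at hcon
    obtain ⟨y1, y2, y3, y4⟩ := hcon
    apply hc
    refine ⟨s, y, c, i, hy, hcs.symm, his.symm, y2, y3, hic.symm, ?_, ?_, nci⟩
    · intro h
      exact y1 (h4 s c y b e6.symm hy hsb h.symm hcb)
    · intro h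
      exact y4 (h4 s i y z e1.symm hy hzs.symm h.symm hiz)
  have hNt : ∀ x, G.Adj t x → x = w ∨ x = q ∨ x = i := by
    intro y hy
    by_contra hcon
    push Not at hcon
    obtain ⟨y1, y2, y3⟩ := hcon
    apply hc
    refine ⟨t, y, w, i, hy, hwt.symm, hit.symm, y1, y3, hiw.symm, ?_, ?_, nwi⟩
    · intro h
      exact y2 (h4 t w y q e9.symm hy htq h.symm hwq)
    · intro h
      rcases hNi y h.symm with rfl | rfl | rfl
      · exact nst hy.symm
      · exact hy.ne rfl
      · exact hst (h4 y i s t e3.symm hzs hy.symm his hit)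
  -- the set
  have hmem : ∀ x, x ∈ ({i, z, s, b, c, w, q, t} : Finset V) ↔
      x = i ∨ x = z ∨ x = s ∨ x = b ∨ x = c ∨ x = w ∨ x = q ∨ x = t := by
    intro x; simp
  have hout : ∀ v, v ∉ ({i, z, s, b, c, w, q, t} : Finset V) →
      ∀ x ∈ ({i, z, s, b, c, w, q, t} : Finset V), G.Adj v x → x = b ∨ x = z ∨ x = q := by
    intro v hv x hx hvx
    rw [hmem] at hv hx
    push Not at hv
    obtain ⟨v1, v2, v3, v4, v5, v6, v7, v8⟩ := hv
    rcases hx with rfl | rfl | rfl | rfl | rfl | rfl | rfl | rfl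
    · rcases hNi v hvx.symm with h | h | h
      · exact absurd h v3
      · exact absurd h v8
      · exact absurd h v2
    · exact Or.inr (Or.inl rfl)
    · rcases hNs v hvx.symm with h | h | h | h
      · exact absurd h v4
      · exact absurd h v5
      · exact absurd h v1
      · exact absurd h v2
    · exact Or.inl rfl
    · rcases hNc v hvx.symm with h | h | h
      · exact absurd h v3
      · exact absurd h v4
      · exact absurd h v6
    · rcases hNw v hvx.symm with h | h | h
      · exact absurd h v8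
      · exact absurd h v7
      · exact absurd h v5
    · exact Or.inr (Or.inr rfl)
    · rcases hNt v hvx.symm with h | h | h
      · exact absurd h v6
      · exact absurd h v7
      · exact absurd h v1
  have hbz : ∀ v, v ∉ ({i, z, s, b, c, w, q, t} : Finset V) → ¬ (G.Adj v b ∧ G.Adj v z) := by
    intro v hv ⟨hb, hz⟩
    rw [hmem] at hv
    push Not at hv
    exact hzb (h4 v s b z hv.2.2.1 hb hz hsb hzs.symm).symm
  have hint : ∀ v, v ∉ ({i, z, s, b, c, w, q, t} : Finset V) →
      ((nb G v ∩ {i, z, s, b, c, w, q, t}).card ≤ 2 ∧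
        ((nb G v ∩ {i, z, s, b, c, w, q, t}).card = 2 → G.Adj v q)) := by
    intro v hv
    have hsub : nb G v ∩ {i, z, s, b, c, w, q, t} ⊆
        (if G.Adj v b then {b} else {z}) ∪ (if G.Adj v q then {q} else ∅) := by
      intro x hx
      have hx' := Finset.mem_inter.mp hx
      have hvx := mem_nb.mp hx'.1
      rcases hout v hv x hx'.2 hvx with rfl | rfl | rfl
      · apply Finset.mem_union_left; simp [hvx]
      · apply Finset.mem_union_left
        have : ¬ G.Adj v b := fun h => hbz v hv ⟨h, hvx⟩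
        simp [this]
      · apply Finset.mem_union_right; simp [hvx]
    have hcard := Finset.card_le_card hsub
    have hu := Finset.card_union_le (if G.Adj v b then ({b} : Finset V) else {z})
      (if G.Adj v q then ({q} : Finset V) else ∅)
    have hl : (if G.Adj v b then ({b} : Finset V) else {z}).card = 1 := by
      split_ifs <;> simp
    by_cases hq : G.Adj v q
    · simp only [hq, if_true, Finset.card_singleton] at hu hcard
      exact ⟨by omega, fun _ => hq⟩
    · simp only [hq, if_false, Finset.card_empty] at hu hcard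
      exact ⟨by omega, fun h => by omega⟩
  apply happy_of_set hconn hc hd {i, z, s, b, c, w, q, t} ⟨i, by simp⟩
    (fun x => decide (x = s ∨ x = b ∨ x = q ∨ x = t))
  · intro u hu
    rw [hmem] at hu
    rcases hu with rfl | rfl | rfl | rfl | rfl | rfl | rfl | rfl
    · exact ⟨z, by simp, t, by simp, hiz, hit, by
        simp [e4, hzb, hzq, hzt]⟩
    · exact ⟨i, by simp, s, by simp, hiz.symm, hzs, by
        simp [e1, hib, hiq, e2]⟩
    · exact ⟨b, by simp, z, by simp, hsb, hzs.symm, by
        simp [e4, hzb, hzq, hzt]⟩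
    · exact ⟨s, by simp, c, by simp, hsb.symm, hcb.symm, by
        simp [e6, e7, hqc.symm, htc.symm]⟩
    · exact ⟨b, by simp, w, by simp, hcb, hcw, by
        simp [hsw.symm, hbw.symm, e10, e9]⟩
    · exact ⟨c, by simp, q, by simp, hcw.symm, hwq, by
        simp [e6, e7, hqc.symm, htc.symm]⟩
    · exact ⟨w, by simp, t, by simp, hwq.symm, htq.symm, by
        simp [hsw.symm, hbw.symm, e10, e9]⟩
    · exact ⟨q, by simp, i, by simp, htq, hit.symm, by
        simp [e1, hib, hiq, e2]⟩
  · intro v hv
    have h1 := (hint v hv).1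
    have h2 := Finset.card_sdiff_add_card_inter (nb G v) {i, z, s, b, c, w, q, t}
    have h3 := hd v
    omega
  · intro v v' hv hv' hne h1 h1'
    have h2 := Finset.card_sdiff_add_card_inter (nb G v) {i, z, s, b, c, w, q, t}
    have h3 := hd v
    have h2' := Finset.card_sdiff_add_card_inter (nb G v') {i, z, s, b, c, w, q, t}
    have h3' := hd v'
    have h4a := (hint v hv).1
    have h4a' := (hint v' hv').1
    have hq := (hint v hv).2 (by omega)
    have hq' := (hint v' hv').2 (by omega)
    by_contra hcon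
    have hv1 := hv
    have hv1' := hv'
    rw [hmem] at hv1 hv1'
    push Not at hv1 hv1'
    apply hc
    refine ⟨q, v, v', w, hq.symm, hq'.symm, hwq.symm, hne, hv1.2.2.2.2.2.1, hv1'.2.2.2.2.2.1,
      hcon, ?_, ?_⟩
    · intro h
      rcases hNw v h.symm with h | h | h
      · exact hv1.2.2.2.2.2.2.2 h
      · exact hv1.2.2.2.2.2.2.1 h
      · exact hv1.2.2.2.2.1 h
    · intro h
      rcases hNw v' h.symm with h | h | h
      · exact hv1'.2.2.2.2.2.2.2 h
      · exact hv1'.2.2.2.2.2.2.1 h
      · exact hv1'.2.2.2.2.1 h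


/-- an outside vertex meeting both triangles, third neighbour adjacent to the first triangle -/
lemma happy_link_exc (hconn : G.Connected) (hc : ClawFree G) (hd : ∀ v, 3 ≤ (nb G v).card)
    (h4 : NoC4 G) {c w a b p q i z : V}
    (hcw : G.Adj c w) (hno : ∀ x, ¬ (G.Adj c x ∧ G.Adj w x))
    (hca : G.Adj c a) (hcb : G.Adj c b) (hab : G.Adj a b)
    (hNc : ∀ x, G.Adj c x → x = a ∨ x = b ∨ x = w)
    (hwp : G.Adj w p) (hwq : G.Adj w q) (hpq : G.Adj p q)
    (hNw : ∀ x, G.Adj w x → x = p ∨ x = q ∨ x = c)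
    (haw : a ≠ w) (hbw : b ≠ w) (hpc : p ≠ c) (hqc : q ≠ c)
    (hic : i ≠ c) (hiw : i ≠ w) (hib : i ≠ b) (hiq : i ≠ q)
    (hia : G.Adj i a) (hip : G.Adj i p) (hiz : G.Adj i z)
    (hNi : ∀ x, G.Adj i x → x = a ∨ x = p ∨ x = z) (hza : G.Adj z a) (hzp : z ≠ p) :
    ∃ c, Happy G c := by
  have hap : a ≠ p := fun h => hno a ⟨hca, h ▸ hwp⟩
  have haq : a ≠ q := fun h => hno a ⟨hca, h ▸ hwq⟩
  have hbp : b ≠ p := fun h => hno b ⟨hcb, h ▸ hwp⟩
  have hbq : b ≠ q := fun h => hno b ⟨hcb, h ▸ hwq⟩
  have nci : ¬ G.Adj c i := fun h => by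
    rcases hNc i h with h | h | h
    · exact hia.ne h
    · exact hib h
    · exact hiw h
  have nwi : ¬ G.Adj w i := fun h => by
    rcases hNw i h with h | h | h
    · exact hip.ne h
    · exact hiq h
    · exact hic h
  have nib : ¬ G.Adj i b := fun h =>
    hab.ne (h4 i c a b hic hia h hca hcb)
  have niq : ¬ G.Adj i q := fun h =>
    hpq.ne (h4 i w p q hiw hip h hwp hwq)
  refine happy_S8 hconn hc hd h4 (c := c) (w := w) (s := a) (b := b) (t := p) (q := q) (i := i)
    (z := z) hcw hca hcb hab hNc hwp hwq hpq hNw hia hip hiz hNi hza hap haq hbp hbq hic hiw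
    ?_ ?_ ?_ hzp ?_ hib hiq haw hbw hpc hqc
  · rintro rfl; exact nci hiz.symm
  · rintro rfl; exact nwi hiz.symm
  · rintro rfl; exact nib hiz
  · rintro rfl; exact niq hiz

lemma happy_link_exc2 (hconn : G.Connected) (hc : ClawFree G) (hd : ∀ v, 3 ≤ (nb G v).card)
    (h4 : NoC4 G) {c w a b p q i z : V}
    (hcw : G.Adj c w) (hno : ∀ x, ¬ (G.Adj c x ∧ G.Adj w x))
    (hca : G.Adj c a) (hcb : G.Adj c b) (hab : G.Adj a b)
    (hNc : ∀ x, G.Adj c x → x = a ∨ x = b ∨ x = w)
    (hwp : G.Adj w p) (hwq : G.Adj w q) (hpq : G.Adj p q)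
    (hNw : ∀ x, G.Adj w x → x = p ∨ x = q ∨ x = c)
    (haw : a ≠ w) (hbw : b ≠ w) (hpc : p ≠ c) (hqc : q ≠ c)
    (hic : i ≠ c) (hiw : i ≠ w) (hib : i ≠ b) (hiq : i ≠ q)
    (hia : G.Adj i a) (hip : G.Adj i p) (hiz : G.Adj i z) (hza : z ≠ a) (hzp : z ≠ p)
    (hNi : ∀ x, G.Adj i x → x = a ∨ x = p ∨ x = z) :
    ∃ c, Happy G c := by
  have hap : a ≠ p := fun h => hno a ⟨hca, h ▸ hwp⟩
  have nap : ¬ G.Adj a p := fun h => hpc (h4 a w c p haw hca.symm h hcw.symm hwp).symm
  by_cases h : G.Adj z a
  · exact happy_link_exc hconn hc hd h4 hcw hno hca hcb hab hNc hwp hwq hpq hNw haw hbw hpc hqc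
      hic hiw hib hiq hia hip hiz hNi h hzp
  · have hzp' : G.Adj z p := by
      by_contra hcon
      apply hc
      exact ⟨i, a, p, z, hia, hip, hiz, hap, hza.symm, hzp.symm, nap, fun h' => h h'.symm,
        fun h' => hcon h'.symm⟩
    have hno' : ∀ x, ¬ (G.Adj w x ∧ G.Adj c x) := fun x hx => hno x ⟨hx.2, hx.1⟩
    exact happy_link_exc hconn hc hd h4 hcw.symm hno' hwp hwq hpq hNw hca hcb hab hNc hpc hqc
      haw hbw hiw hic hiq hib hip hia hiz (fun x hx => by
        rcases hNi x hx with h1 | h1 | h1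
        · exact Or.inr (Or.inl h1)
        · exact Or.inl h1
        · exact Or.inr (Or.inr h1)) hzp' hza

/-- an edge in no triangle -/
lemma happy_of_link (hconn : G.Connected) (hc : ClawFree G) (hd : ∀ v, 3 ≤ (nb G v).card)
    (h4 : NoC4 G) {c w : V} (hcw : G.Adj c w) (hno : ∀ x, ¬ (G.Adj c x ∧ G.Adj w x)) :
    ∃ c, Happy G c := by
  have hno' : ∀ x, ¬ (G.Adj w x ∧ G.Adj c x) := fun x hx => hno x ⟨hx.2, hx.1⟩
  obtain ⟨a, b, hab', hca, hcb, hab, haw, hbw, hNc⟩ := nb_link hc hd h4 hcw hno
  obtain ⟨p, q, hpq', hwp, hwq, hpq, hpc, hqc, hNw⟩ := nb_link hc hd h4 hcw.symm hno'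
  have hap : a ≠ p := fun h => hno a ⟨hca, h ▸ hwp⟩
  have haq : a ≠ q := fun h => hno a ⟨hca, h ▸ hwq⟩
  have hbp : b ≠ p := fun h => hno b ⟨hcb, h ▸ hwp⟩
  have hbq : b ≠ q := fun h => hno b ⟨hcb, h ▸ hwq⟩
  have hmem : ∀ x, x ∈ ({a, b, c, w, p, q} : Finset V) ↔
      x = a ∨ x = b ∨ x = c ∨ x = w ∨ x = p ∨ x = q := by
    intro x; simp
  have hout : ∀ v, v ∉ ({a, b, c, w, p, q} : Finset V) → ¬ G.Adj v c ∧ ¬ G.Adj v w ∧
      ¬ (G.Adj v a ∧ G.Adj v b) ∧ ¬ (G.Adj v p ∧ G.Adj v q) := by
    intro v hv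
    rw [hmem] at hv
    push Not at hv
    obtain ⟨v1, v2, v3, v4, v5, v6⟩ := hv
    refine ⟨?_, ?_, ?_, ?_⟩
    · intro h
      rcases hNc v h.symm with h | h | h
      · exact v1 h
      · exact v2 h
      · exact v4 h
    · intro h
      rcases hNw v h.symm with h | h | h
      · exact v5 h
      · exact v6 h
      · exact v3 h
    · rintro ⟨h1, h2⟩
      exact hab' (h4 v c a b v3 h1 h2 hca hcb)
    · rintro ⟨h1, h2⟩
      exact hpq' (h4 v w p q v4 h1 h2 hwp hwq)
  have hint : ∀ v, v ∉ ({a, b, c, w, p, q} : Finset V) →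
      (nb G v ∩ {a, b, c, w, p, q}).card ≤ 2 ∧
      ((nb G v ∩ {a, b, c, w, p, q}).card = 2 →
        (G.Adj v a ∨ G.Adj v b) ∧ (G.Adj v p ∨ G.Adj v q)) := by
    intro v hv
    obtain ⟨o1, o2, o3, o4⟩ := hout v hv
    have hsub : nb G v ∩ {a, b, c, w, p, q} ⊆
        (if G.Adj v a then {a} else if G.Adj v b then {b} else ∅) ∪
          (if G.Adj v p then {p} else if G.Adj v q then {q} else ∅) := by
      intro x hx
      have hx' := Finset.mem_inter.mp hx
      have hvx := mem_nb.mp hx'.1
      rw [hmem] at hx'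
      rcases hx'.2 with rfl | rfl | rfl | rfl | rfl | rfl
      · apply Finset.mem_union_left; simp [hvx]
      · apply Finset.mem_union_left
        have : ¬ G.Adj v a := fun h => o3 ⟨h, hvx⟩
        simp [this, hvx]
      · exact absurd hvx o1
      · exact absurd hvx o2
      · apply Finset.mem_union_right; simp [hvx]
      · apply Finset.mem_union_right
        have : ¬ G.Adj v p := fun h => o4 ⟨h, hvx⟩
        simp [this, hvx]
    have hcard := Finset.card_le_card hsub
    have hu := Finset.card_union_le (if G.Adj v a then ({a} : Finset V) else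
      if G.Adj v b then {b} else ∅) (if G.Adj v p then ({p} : Finset V) else
        if G.Adj v q then {q} else ∅)
    by_cases h1 : G.Adj v a <;> by_cases h2 : G.Adj v b <;> by_cases h3 : G.Adj v p <;>
      by_cases h5 : G.Adj v q <;>
      simp only [h1, h2, h3, h5, if_true, if_false, Finset.card_singleton,
        Finset.card_empty, true_or, or_true, or_self, or_false, and_self, and_true, and_false,
        true_and, false_and] at hu hcard ⊢ <;>
      first
        | exact ⟨by omega, fun _ => trivial⟩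
        | exact ⟨by omega, fun h => by omega⟩
  by_cases hexc : ∃ i, i ∉ ({a, b, c, w, p, q} : Finset V) ∧
      (nb G i \ {a, b, c, w, p, q}).card ≤ 1
  · obtain ⟨i, hi, hi1⟩ := hexc
    have h2 := Finset.card_sdiff_add_card_inter (nb G i) {a, b, c, w, p, q}
    have h3 := hd i
    obtain ⟨hle, himp⟩ := hint i hi
    obtain ⟨hs, ht⟩ := himp (by omega)
    have hone : (nb G i \ {a, b, c, w, p, q}).card = 1 := by omega
    obtain ⟨z, hz⟩ := Finset.card_eq_one.mp hone
    have hzm : z ∈ nb G i \ {a, b, c, w, p, q} := by rw [hz]; simp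
    have hiz : G.Adj i z := mem_nb.mp (Finset.mem_sdiff.mp hzm).1
    have hzW := (Finset.mem_sdiff.mp hzm).2
    obtain ⟨o1, o2, o3, o4⟩ := hout i hi
    rw [hmem] at hi hzW
    push Not at hi hzW
    have hNi : ∀ x, G.Adj i x → (x = a ∨ x = b ∨ x = p ∨ x = q) ∨ x = z := by
      intro x hx
      by_cases hxW : x ∈ ({a, b, c, w, p, q} : Finset V)
      · left
        rw [hmem] at hxW
        rcases hxW with h | h | h | h | h | h
        · exact Or.inl h
        · exact Or.inr (Or.inl h)
        · exact absurd (h ▸ hx) o1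
        · exact absurd (h ▸ hx) o2
        · exact Or.inr (Or.inr (Or.inl h))
        · exact Or.inr (Or.inr (Or.inr h))
      · right
        have : x ∈ nb G i \ {a, b, c, w, p, q} :=
          Finset.mem_sdiff.mpr ⟨mem_nb.mpr hx, hxW⟩
        rw [hz] at this
        simpa using this
    obtain ⟨i1, i2, i3, i4, i5, i6⟩ := hi
    obtain ⟨z1, z2, z3, z4, z5, z6⟩ := hzW
    have hNcs : ∀ x, G.Adj c x → x = b ∨ x = a ∨ x = w := fun x hx => by
      rcases hNc x hx with h | h | h
      · exact Or.inr (Or.inl h)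
      · exact Or.inl h
      · exact Or.inr (Or.inr h)
    have hNws : ∀ x, G.Adj w x → x = q ∨ x = p ∨ x = c := fun x hx => by
      rcases hNw x hx with h | h | h
      · exact Or.inr (Or.inl h)
      · exact Or.inl h
      · exact Or.inr (Or.inr h)
    rcases hs with hs | hs <;> rcases ht with ht | ht
    · have n1 : ¬ G.Adj i b := fun h => o3 ⟨hs, h⟩
      have n2 : ¬ G.Adj i q := fun h => o4 ⟨ht, h⟩
      exact happy_link_exc2 hconn hc hd h4 hcw hno hca hcb hab hNc hwp hwq hpq hNw haw hbw hpc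
        hqc i3 i4 i2 i6 hs ht hiz z1 z5 (fun x hx => by
          rcases hNi x hx with (h | h | h | h) | h
          · exact Or.inl h
          · exact absurd (h ▸ hx) n1
          · exact Or.inr (Or.inl h)
          · exact absurd (h ▸ hx) n2
          · exact Or.inr (Or.inr h))
    · have n1 : ¬ G.Adj i b := fun h => o3 ⟨hs, h⟩
      have n2 : ¬ G.Adj i p := fun h => o4 ⟨h, ht⟩
      exact happy_link_exc2 hconn hc hd h4 hcw hno hca hcb hab hNc hwq hwp hpq.symm hNws haw hbw
        hqc hpc i3 i4 i2 i5 hs ht hiz z1 z6 (fun x hx => by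
          rcases hNi x hx with (h | h | h | h) | h
          · exact Or.inl h
          · exact absurd (h ▸ hx) n1
          · exact absurd (h ▸ hx) n2
          · exact Or.inr (Or.inl h)
          · exact Or.inr (Or.inr h))
    · have n1 : ¬ G.Adj i a := fun h => o3 ⟨h, hs⟩
      have n2 : ¬ G.Adj i q := fun h => o4 ⟨ht, h⟩
      exact happy_link_exc2 hconn hc hd h4 hcw hno hcb hca hab.symm hNcs hwp hwq hpq hNw hbw haw
        hpc hqc i3 i4 i1 i6 hs ht hiz z2 z5 (fun x hx => by
          rcases hNi x hx with (h | h | h | h) | h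
          · exact absurd (h ▸ hx) n1
          · exact Or.inl h
          · exact Or.inr (Or.inl h)
          · exact absurd (h ▸ hx) n2
          · exact Or.inr (Or.inr h))
    · have n1 : ¬ G.Adj i a := fun h => o3 ⟨h, hs⟩
      have n2 : ¬ G.Adj i p := fun h => o4 ⟨h, ht⟩
      exact happy_link_exc2 hconn hc hd h4 hcw hno hcb hca hab.symm hNcs hwq hwp hpq.symm hNws
        hbw haw hqc hpc i3 i4 i1 i5 hs ht hiz z2 z6 (fun x hx => by
          rcases hNi x hx with (h | h | h | h) | h
          · exact absurd (h ▸ hx) n1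
          · exact Or.inl h
          · exact absurd (h ▸ hx) n2
          · exact Or.inr (Or.inl h)
          · exact Or.inr (Or.inr h))
  · push Not at hexc
    apply happy_of_set hconn hc hd {a, b, c, w, p, q} ⟨a, by simp⟩
      (fun x => decide (x = c ∨ x = w))
    · intro u hu
      rw [hmem] at hu
      rcases hu with rfl | rfl | rfl | rfl | rfl | rfl
      · exact ⟨b, by simp, c, by simp, hab, hca.symm, by simp [hcb.ne.symm, hbw]⟩
      · exact ⟨a, by simp, c, by simp, hab.symm, hcb.symm, by simp [hca.ne.symm, haw]⟩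
      · exact ⟨a, by simp, w, by simp, hca, hcw, by simp [hca.ne.symm, haw]⟩
      · exact ⟨p, by simp, c, by simp, hwp, hcw.symm, by simp [hwp.ne.symm, hpc]⟩
      · exact ⟨q, by simp, w, by simp, hpq, hwp.symm, by simp [hwq.ne.symm, hqc]⟩
      · exact ⟨p, by simp, w, by simp, hpq.symm, hwq.symm, by simp [hwp.ne.symm, hpc]⟩
    · intro v hv
      have := hexc v hv
      omega
    · intro v v' hv hv' _ h1 _
      have := hexc v hv
      omega

end

end R93.TotDom
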